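import Mathlib

set_option autoImplicit false

open Set Filter Topology

namespace Pool.Agent.Lib.MP_76989b_gt

/-- `f : X → ℝ` is quasicontinuous: whenever `x ∈ X`, `U` is an open neighbourhood of `x` and `V`
is an open neighbourhood of `f x`, some nonempty open `W ⊆ U` satisfies `f(W) ⊆ V`. -/
def Quasicontinuous {X : Type*} [TopologicalSpace X] (f : X → ℝ) : Prop :=
  ∀ x : X, ∀ U : Set X, IsOpen U → x ∈ U → ∀ V : Set ℝ, IsOpen V → f x ∈ V →
    ∃ W : Set X, IsOpen W ∧ W.Nonempty ∧ W ⊆ U ∧ f '' W ⊆ V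

/-- `Q_p(X, ℝ)`: the set of quasicontinuous real functions on `X`, with the topology of pointwise
convergence (the subspace topology inherited from the product `ℝ ^ X`). -/
abbrev Qp (X : Type*) [TopologicalSpace X] : Type _ := {f : X → ℝ // Quasicontinuous f}

/-- `Y` is Fréchet-Urysohn at `y`: for each `A ⊆ Y` with `y ∈ closure A`, some sequence of points
of `A` converges to `y`. -/
def FrechetUrysohnAt {Y : Type*} [TopologicalSpace Y] (y : Y) : Prop :=
  ∀ A : Set Y, y ∈ closure A → ∃ u : ℕ → Y, (∀ n, u n ∈ A) ∧ Tendsto u atTop (𝓝 y)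

/-- `X` is open Whyburn: for every open `A` and every `x ∈ closure A \ A` there is an open `B ⊆ A`
with `closure B \ A = {x}`. -/
def OpenWhyburn (X : Type*) [TopologicalSpace X] : Prop :=
  ∀ A : Set X, IsOpen A → ∀ x ∈ closure A \ A, ∃ B : Set X, IsOpen B ∧ B ⊆ A ∧ closure B \ A = {x}

/-- `A` is minimally bounded. -/
def MinimallyBounded {X : Type*} [TopologicalSpace X] (A : Set X) : Prop :=
  A ⊆ closure (interior A) ∧ interior (closure A) ⊆ A

/-- `Ω^s`: the covers of `X` by minimally bounded sets such that every finite subset of `X` is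
contained in some member. -/
def OmegaS (X : Type*) [TopologicalSpace X] : Set (Set (Set X)) :=
  {U | (∀ A ∈ U, MinimallyBounded A) ∧ ⋃₀ U = univ ∧
    ∀ F : Set X, F.Finite → ∃ A ∈ U, F ⊆ A}

/-- `Γ^s`: the covers of `X` by minimally bounded sets such that each point of `X` is missing from
only finitely many members. -/
def GammaS (X : Type*) [TopologicalSpace X] : Set (Set (Set X)) :=
  {U | (∀ A ∈ U, MinimallyBounded A) ∧ ⋃₀ U = univ ∧ ∀ x : X, {A | A ∈ U ∧ x ∉ A}.Finite}

/-- The selection principle `S_1(Ω^s, Γ^s)`: from every sequence `(U n)` of elements of `Ω^s` one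
can choose `V n ∈ U n` with `{V n : n} ∈ Γ^s`. -/
def S1OmegaGamma (X : Type*) [TopologicalSpace X] : Prop :=
  ∀ U : ℕ → Set (Set X), (∀ n, U n ∈ OmegaS X) →
    ∃ V : ℕ → Set X, (∀ n, V n ∈ U n) ∧ range V ∈ GammaS X

/-- The selection principle `S_1(Ω^s, Γ^s)` under the customary conventions that `X` itself is not
a member of an `ω`-cover and that a `γ`-cover is infinite. -/
def S1OmegaGammaProper (X : Type*) [TopologicalSpace X] : Prop :=
  ∀ U : ℕ → Set (Set X), (∀ n, U n ∈ OmegaS X ∧ univ ∉ U n) →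
    ∃ V : ℕ → Set X, (∀ n, V n ∈ U n) ∧ range V ∈ GammaS X ∧ (range V).Infinite

end Pool.Agent.Lib.MP_76989b_gt
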