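import Mathlib
import Pool.Agent.Lib.MP_76989b_gt.Defs

set_option autoImplicit false

open Set Filter Topology

namespace Pool.Agent.Lib.MP_76989b_gt

/-- The strong form of the selection principle. -/
def S1Strong (X : Type*) [TopologicalSpace X] : Prop :=
  ∀ U : ℕ → Set (Set X), (∀ n, U n ∈ OmegaS X) →
    ∃ V : ℕ → Set X, (∀ n, V n ∈ U n) ∧ ∀ x, ∀ᶠ n in atTop, x ∈ V n

/-- A weak form of the selection principle, implied by both the literal and the customary one. -/
def S1Weak (X : Type*) [TopologicalSpace X] : Prop :=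
  ∀ U : ℕ → Set (Set X), (∀ n, U n ∈ OmegaS X ∧ univ ∉ U n) →
    ∃ V : ℕ → Set X, (∀ n, V n ∈ U n) ∧ range V ∈ GammaS X

lemma S1OmegaGamma.weak {X : Type*} [TopologicalSpace X] (h : S1OmegaGamma X) : S1Weak X :=
  fun U hU => h U (fun n => (hU n).1)

lemma S1OmegaGammaProper.weak {X : Type*} [TopologicalSpace X] (h : S1OmegaGammaProper X) :
    S1Weak X := by
  intro U hU
  obtain ⟨V, h1, h2, _⟩ := h U hU
  exact ⟨V, h1, h2⟩

variable {X : Type*} [TopologicalSpace X]

lemma MinimallyBounded.inter_regularOpen {A W : Set X} (hA : MinimallyBounded A)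
    (hW : interior (closure W) = W) : MinimallyBounded (A ∩ W) := by
  have hWo : IsOpen W := by rw [← hW]; exact isOpen_interior
  constructor
  · rintro x ⟨hxA, hxW⟩
    have h1 := hA.1 hxA
    rw [interior_inter, hWo.interior_eq]
    rw [mem_closure_iff] at h1 ⊢
    intro O hO hxO
    obtain ⟨y, hy1, hy2⟩ := h1 (O ∩ W) (hO.inter hWo) ⟨hxO, hxW⟩
    exact ⟨y, hy1.1, hy2, hy1.2⟩
  · intro x hx
    have h1 : x ∈ interior (closure A) :=
      interior_mono (closure_mono inter_subset_left) hx
    have h2 : x ∈ interior (closure W) :=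
      interior_mono (closure_mono inter_subset_right) hx
    exact ⟨hA.2 h1, hW ▸ h2⟩

lemma minimallyBounded_closure {G : Set X} (hG : IsOpen G) : MinimallyBounded (closure G) := by
  constructor
  · exact closure_mono (interior_maximal subset_closure hG)
  · rw [closure_closure]
    exact interior_subset

lemma exists_regularOpen_separating [T2Space X] {F : Set X} (hF : F.Finite) {y : X} (hy : y ∉ F) :
    ∃ W : Set X, interior (closure W) = W ∧ F ⊆ W ∧ y ∉ closure W := by
  have hdisj : Disjoint hF.toFinset {y} := by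
    simp [hy]
  obtain ⟨u, v, hu, hv, hFu, hyv, huv⟩ := SeparatedNhds.of_finset_finset hF.toFinset {y} hdisj
  have hcl : Disjoint (closure u) v := huv.closure_left hv
  have hyv' : y ∈ v := hyv (by simp)
  have hFu' : F ⊆ u := by
    intro x hx
    exact hFu (by simpa using hx)
  refine ⟨interior (closure u), ?_, ?_, ?_⟩
  · exact interior_closure_idem
  · exact hFu'.trans (interior_maximal subset_closure hu)
  · intro h
    have h2 : closure (interior (closure u)) ⊆ closure u := by
      rw [← closure_closure (s := u)]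
      exact closure_mono (by rw [closure_closure]; exact interior_subset)
    exact (Set.disjoint_left.1 hcl) (h2 h) hyv'

lemma S1Weak.strong [T2Space X] (h : S1Weak X) : S1Strong X := by
  classical
  intro U hU
  by_cases hfin : Finite X
  · -- finite spaces
    have hch : ∀ n, univ ∈ U n := by
      intro n
      obtain ⟨A, hA, hA'⟩ := (hU n).2.2 univ finite_univ
      rwa [univ_subset_iff.1 hA'] at hA
    exact ⟨fun _ => univ, hch, fun x => Filter.Eventually.of_forall fun _ => mem_univ x⟩
  · have hinf : Infinite X := not_finite_iff_infinite.1 hfin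
    let z : ℕ ↪ X := Infinite.natEmbedding X
    let U' : ℕ → Set (Set X) := fun n =>
      {A' | ∃ A ∈ U n, ∃ W : Set X, interior (closure W) = W ∧ A' = A ∩ W ∧
        (∃ i, z i ∉ A') ∧ ∀ i < n, z i ∈ A'}
    have hU' : ∀ n, U' n ∈ OmegaS X ∧ univ ∉ U' n := by
      intro n
      have hω : ∀ F : Set X, F.Finite → ∃ A ∈ U' n, F ⊆ A := by
        intro F hF
        have hF' : (F ∪ z '' Iio n).Finite := hF.union ((finite_Iio n).image z)
        obtain ⟨j, hj⟩ : ∃ j, z j ∉ F ∪ z '' Iio n := by
          by_contra hcon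
          push Not at hcon
          have : (range z).Finite := hF'.subset (by rintro _ ⟨j, rfl⟩; exact hcon j)
          exact (Set.infinite_range_of_injective z.injective) this
        obtain ⟨W, hW, hFW, hjW⟩ := exists_regularOpen_separating hF' hj
        obtain ⟨A, hA, hFA⟩ := (hU n).2.2 _ hF'
        refine ⟨A ∩ W, ⟨A, hA, W, hW, rfl, ⟨j, ?_⟩, ?_⟩, ?_⟩
        · intro hjAW
          exact hjW (subset_closure hjAW.2)
        · intro i hi
          exact ⟨hFA (Or.inr ⟨i, hi, rfl⟩), hFW (Or.inr ⟨i, hi, rfl⟩)⟩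
        · intro x hx
          exact ⟨hFA (Or.inl hx), hFW (Or.inl hx)⟩
      refine ⟨⟨?_, ?_, hω⟩, ?_⟩
      · rintro _ ⟨A, hA, W, hW, rfl, _⟩
        exact ((hU n).1 A hA).inter_regularOpen hW
      · rw [eq_univ_iff_forall]
        intro x
        obtain ⟨A, hA, hxA⟩ := hω {x} (finite_singleton x)
        exact ⟨A, hA, hxA rfl⟩
      · rintro ⟨A, _, W, _, _, ⟨i, hi⟩, _⟩
        exact hi (mem_univ _)
    obtain ⟨V', hV', hΓ⟩ := h U' hU'
    choose A hA W hW hVAW hz1 hz2 using hV'
    refine ⟨A, hA, ?_⟩
    -- each value of `V'` is taken finitely often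
    have hfinval : ∀ B : Set X, {n | V' n = B}.Finite := by
      intro B
      by_contra hB
      have hB' : {n | V' n = B}.Infinite := hB
      obtain ⟨m, hm⟩ := hB'.nonempty
      obtain ⟨i, hi⟩ := hz1 m
      obtain ⟨n, hn, hin⟩ := hB'.exists_gt i
      have h1 : z i ∈ V' n := hz2 n i hin
      rw [mem_ofPred_eq] at hn hm
      rw [hn, ← hm] at h1
      exact hi h1
    intro x
    have h1 : {n | x ∉ V' n}.Finite := by
      have h2 := hΓ.2.2 x
      refine (h2.biUnion (fun B _ => hfinval B)).subset ?_
      intro n hn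
      rw [mem_iUnion₂]
      exact ⟨V' n, ⟨mem_range_self n, hn⟩, rfl⟩
    have h2 : ∀ᶠ n in atTop, x ∈ V' n := by
      rw [← Nat.cofinite_eq_atTop, Filter.eventually_cofinite]
      exact h1
    filter_upwards [h2] with n hn
    rw [hVAW n] at hn
    exact hn.1

end Pool.Agent.Lib.MP_76989b_gt
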