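import Mathlib
import Pool.Agent.Lib.MP_76989b_gt.Defs
import Pool.Agent.Lib.MP_76989b_gt.Selection

set_option autoImplicit false

open Set Filter Topology

namespace Pool.Agent.Lib.MP_76989b_gt

variable {X : Type*} [TopologicalSpace X]

/-- local comparison of a quasicontinuous `g` with `f` at a point of continuity of `f`:
in every neighbourhood there is a nonempty open set on which `|g - f|` is close to its value. -/
lemma exists_open_close {f g : X → ℝ} (hg : Quasicontinuous g) {x : X} (hf : ContinuousAt f x)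
    {O : Set X} (hO : IsOpen O) (hx : x ∈ O) {δ : ℝ} (hδ : 0 < δ) :
    ∃ W : Set X, IsOpen W ∧ W.Nonempty ∧ W ⊆ O ∧
      ∀ y ∈ W, |(g y - f y) - (g x - f x)| < δ := by
  obtain ⟨O', hO'sub, hO', hxO'⟩ := eventually_nhds_iff.1
    (Metric.continuousAt_iff'.1 hf (δ / 2) (by linarith))
  obtain ⟨W, hW, hWne, hWsub, hWim⟩ := hg x (O ∩ O') (hO.inter hO') ⟨hx, hxO'⟩
    (Metric.ball (g x) (δ / 2)) Metric.isOpen_ball (Metric.mem_ball_self (by linarith))
  refine ⟨W, hW, hWne, hWsub.trans inter_subset_left, ?_⟩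
  intro y hy
  have h1 : |f y - f x| < δ / 2 := by
    have := hO'sub y (hWsub hy).2
    rwa [Real.dist_eq] at this
  have h2 : |g y - g x| < δ / 2 := by
    have := hWim (mem_image_of_mem g hy)
    rwa [Metric.mem_ball, Real.dist_eq] at this
  rw [abs_lt] at h1 h2 ⊢
  constructor <;> linarith [h1.1, h1.2, h2.1, h2.2]

theorem frechetUrysohnAt_of_data (hS : S1Strong X) (f : X → ℝ) (hf : Quasicontinuous f)
    (M : Set X) (hMc : IsClosed M) (hMct : M.Countable) (hcont : ∀ x, x ∉ M → ContinuousAt f x)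
    (E : ℕ → Set X) (hE : ∀ n, closure (interior (E n)) = E n)
    (hE2 : ∀ d ∈ M, ∀ᶠ n in atTop, d ∈ E n) (hE3 : ∀ x, x ∉ M → ∀ᶠ n in atTop, x ∉ E n) :
    FrechetUrysohnAt (⟨f, hf⟩ : Qp X) := by
  classical
  intro A hA
  obtain ⟨e, he⟩ := Set.countable_iff_exists_injOn.1 hMct
  -- approximation from `A`
  have happrox : ∀ F : Set X, F.Finite → ∀ ε : ℝ, 0 < ε → ∃ g ∈ A, ∀ x ∈ F, |g.1 x - f x| < ε := by
    intro F hF ε hε
    have hopen : IsOpen {g : Qp X | ∀ x ∈ F, |g.1 x - f x| < ε} := by
      have h1 : {g : Qp X | ∀ x ∈ F, |g.1 x - f x| < ε} =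
          ⋂ x ∈ F, {g : Qp X | |g.1 x - f x| < ε} := by
        ext g; simp
      rw [h1]
      refine hF.isOpen_biInter fun x _ => ?_
      have h2 : Continuous (fun g : Qp X => |g.1 x - f x|) :=
        (((continuous_apply x).comp continuous_subtype_val).sub continuous_const).abs
      exact isOpen_lt h2 continuous_const
    obtain ⟨g, hg1, hg2⟩ := mem_closure_iff.1 hA _ hopen (by simp [hε])
    exact ⟨g, hg2, hg1⟩
  -- the sets
  let S : ℕ → Qp X → Set X := fun n g => {x | x ∉ M ∧ |g.1 x - f x| < 1 / ((n : ℝ) + 1)}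
  let O : ℕ → Qp X → Set X := fun n g => interior (S n g) ∪ interior (E n)
  let U : ℕ → Qp X → Set X := fun n g => S n g ∪ E n ∪ interior (closure (O n g))
  have hpos : ∀ n : ℕ, (0 : ℝ) < 1 / ((n : ℝ) + 1) := fun n => by positivity
  have hSsub : ∀ n g, S n g ⊆ closure (interior (S n g)) := by
    intro n g x hx
    rw [mem_closure_iff]
    intro G hG hxG
    obtain ⟨W, hW, hWne, hWsub, hWc⟩ := exists_open_close g.2 (hcont x hx.1)
      (hG.inter hMc.isOpen_compl) ⟨hxG, hx.1⟩
      (δ := 1 / ((n : ℝ) + 1) - |g.1 x - f x|) (by linarith [hx.2])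
    obtain ⟨y, hy⟩ := hWne
    refine ⟨y, (hWsub hy).1, ?_⟩
    rw [mem_interior]
    refine ⟨W, ?_, hW, hy⟩
    intro w hw
    refine ⟨(hWsub hw).2, ?_⟩
    have h1 := hWc w hw
    have h2 := abs_sub_abs_le_abs_sub (g.1 w - f w) (g.1 x - f x)
    linarith
  have hUsub : ∀ n g, U n g ⊆ closure (O n g) := by
    intro n g
    refine union_subset (union_subset ?_ ?_) interior_subset
    · exact (hSsub n g).trans (closure_mono subset_union_left)
    · rw [← hE n]
      exact closure_mono subset_union_right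
  have hOopen : ∀ n g, IsOpen (O n g) := fun n g => isOpen_interior.union isOpen_interior
  have hOU : ∀ n g, O n g ⊆ interior (U n g) := by
    intro n g
    refine interior_maximal ?_ (hOopen n g)
    refine (interior_maximal subset_closure (hOopen n g)).trans subset_union_right
  have hUmb : ∀ n g, MinimallyBounded (U n g) := by
    intro n g
    constructor
    · exact (hUsub n g).trans (closure_mono (hOU n g))
    · have h1 : interior (closure (U n g)) ⊆ interior (closure (O n g)) := by
        apply interior_mono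
        have := closure_mono (hUsub n g)
        rwa [closure_closure] at this
      exact h1.trans subset_union_right
  let Mn : ℕ → Set X := fun n => M ∩ e ⁻¹' Iic n
  have hMnfin : ∀ n, (Mn n).Finite := by
    intro n
    refine Set.Finite.of_injOn (f := e) (t := Iic n) ?_ ?_ (finite_Iic n)
    · intro y hy; exact hy.2
    · exact he.mono inter_subset_left
  let UU : ℕ → Set (Set X) := fun n =>
    {B | ∃ m ≥ n, ∃ g ∈ A, (∀ d ∈ Mn m, |g.1 d - f d| < 1 / ((m : ℝ) + 1)) ∧ B = U m g}
  have hω : ∀ n, ∀ F : Set X, F.Finite → ∃ B ∈ UU n, F ⊆ B := by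
    intro n F hF
    have h1 : ∀ᶠ m in atTop, ∀ x ∈ F, x ∈ M → x ∈ E m := by
      rw [Filter.eventually_all_finite hF]
      intro x _
      by_cases hxM : x ∈ M
      · filter_upwards [hE2 x hxM] with m hm _
        exact hm
      · exact Filter.Eventually.of_forall fun _ h => absurd h hxM
    obtain ⟨m, hm1, hm2⟩ := (h1.and (eventually_ge_atTop n)).exists
    obtain ⟨g, hgA, hg⟩ := happrox (F ∪ Mn m) (hF.union (hMnfin m)) _ (hpos m)
    refine ⟨U m g, ⟨m, hm2, g, hgA, fun d hd => hg d (Or.inr hd), rfl⟩, ?_⟩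
    intro x hx
    by_cases hxM : x ∈ M
    · exact Or.inl (Or.inr (hm1 x hx hxM))
    · exact Or.inl (Or.inl ⟨hxM, hg x (Or.inl hx)⟩)
  have hUU : ∀ n, UU n ∈ OmegaS X := by
    intro n
    refine ⟨?_, ?_, hω n⟩
    · rintro B ⟨m, _, g, _, _, rfl⟩
      exact hUmb m g
    · rw [eq_univ_iff_forall]
      intro x
      obtain ⟨B, hB, hxB⟩ := hω n {x} (finite_singleton x)
      exact ⟨B, hB, hxB rfl⟩
  obtain ⟨V, hV, hVx⟩ := hS UU hUU
  choose m hm g hgA hgM hVU using hV
  refine ⟨g, hgA, ?_⟩
  rw [tendsto_subtype_rng, tendsto_pi_nhds]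
  intro x
  -- it suffices to bound the distance
  have hbound : ∀ᶠ n in atTop, |(g n).1 x - f x| ≤ 1 / ((n : ℝ) + 1) := by
    have hmono : ∀ n : ℕ, 1 / (((m n : ℕ) : ℝ) + 1) ≤ 1 / ((n : ℝ) + 1) := by
      intro n
      apply one_div_le_one_div_of_le (by positivity)
      have : (n : ℝ) ≤ (m n : ℝ) := by exact_mod_cast hm n
      linarith
    by_cases hxM : x ∈ M
    · filter_upwards [eventually_ge_atTop (e x)] with n hn
      refine (hgM n x ⟨hxM, ?_⟩).le.trans (hmono n)
      exact le_trans hn (hm n)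
    · have h1 : Tendsto m atTop atTop := tendsto_atTop_mono hm tendsto_id
      filter_upwards [hVx x, h1.eventually (hE3 x hxM)] with n hn1 hn2
      rw [hVU n] at hn1
      refine le_trans ?_ (hmono n)
      rcases hn1 with (hn1 | hn1) | hn1
      · exact hn1.2.le
      · exact absurd hn1 hn2
      · by_contra hcon
        rw [not_le] at hcon
        have hEc : IsClosed (E (m n)) := by rw [← hE (m n)]; exact isClosed_closure
        obtain ⟨W, hW, hWne, hWsub, hWc⟩ := exists_open_close (g n).2 (hcont x hxM)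
          (isOpen_interior.inter hEc.isOpen_compl) ⟨hn1, hn2⟩
          (δ := |(g n).1 x - f x| - 1 / (((m n : ℕ) : ℝ) + 1)) (by linarith)
        obtain ⟨w, hw⟩ := hWne
        have hwcl : w ∈ closure (O (m n) (g n)) := interior_subset (hWsub hw).1
        obtain ⟨y, hyW, hyO⟩ := mem_closure_iff.1 hwcl W hW hw
        rcases hyO with hyO | hyO
        · have h2 := (interior_subset hyO).2
          have h3 := hWc y hyW
          have h4 := abs_sub_abs_le_abs_sub ((g n).1 x - f x) ((g n).1 y - f y)
          rw [abs_sub_comm ((g n).1 x - f x) ((g n).1 y - f y)] at h4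
          linarith
        · exact (hWsub hyW).2 (interior_subset hyO)
  rw [tendsto_iff_dist_tendsto_zero]
  refine squeeze_zero' (Filter.Eventually.of_forall fun _ => dist_nonneg) ?_
    tendsto_one_div_add_atTop_nhds_zero_nat
  filter_upwards [hbound] with n hn
  rw [Real.dist_eq]
  exact hn

/-- For a Hausdorff space with the selection principle, `Q_p(X)` is Fréchet-Urysohn at each
continuous function. -/
theorem frechetUrysohnAt_of_continuous (hS : S1Strong X) (f : X → ℝ) (hf : Quasicontinuous f)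
    (hc : Continuous f) : FrechetUrysohnAt (⟨f, hf⟩ : Qp X) := by
  refine frechetUrysohnAt_of_data hS f hf ∅ isClosed_empty countable_empty
    (fun x _ => hc.continuousAt) (fun _ => ∅) (fun n => by simp) (by simp) (by simp)

end Pool.Agent.Lib.MP_76989b_gt
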