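import Mathlib

set_option autoImplicit false

open Set Filter Topology

namespace Pool.Agent.Lib.MP_76989b_gt

/-! ### A countable set with a dense map into the Cantor cube of weight continuum -/

/-- The countable index set. -/
abbrev D : Type := Finset (ℚ × ℚ)

open Classical in
/-- A map from the countable set `D` into the cube with dense range. -/
noncomputable def Phi (s : D) (r : ℝ) : Bool :=
  decide (∃ q ∈ s, (q.1 : ℝ) < r ∧ r < (q.2 : ℝ))

lemma Phi_eq_true_iff (s : D) (r : ℝ) :
    Phi s r = true ↔ ∃ q ∈ s, (q.1 : ℝ) < r ∧ r < (q.2 : ℝ) := by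
  simp [Phi]

lemma exists_rat_interval (F : Finset ℝ) (r : ℝ) :
    ∃ q : ℚ × ℚ, (q.1 : ℝ) < r ∧ r < (q.2 : ℝ) ∧
      ∀ r' ∈ F, r' ≠ r → ¬ ((q.1 : ℝ) < r' ∧ r' < (q.2 : ℝ)) := by
  have hopen : IsOpen ((↑(F.erase r) : Set ℝ)ᶜ) := (F.erase r).finite_toSet.isClosed.isOpen_compl
  have hmem : r ∈ ((↑(F.erase r) : Set ℝ)ᶜ) := by simp
  obtain ⟨ε, hε, hball⟩ := Metric.isOpen_iff.1 hopen r hmem
  obtain ⟨a, ha1, ha2⟩ := exists_rat_btwn (show r - ε < r by linarith)
  obtain ⟨b, hb1, hb2⟩ := exists_rat_btwn (show r < r + ε by linarith)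
  refine ⟨(a, b), ha2, hb1, ?_⟩
  intro r' hr' hne ⟨h1, h2⟩
  have : r' ∈ Metric.ball r ε := by
    rw [Metric.mem_ball, Real.dist_eq, abs_lt]
    simp only at h1 h2
    constructor <;> linarith
  have := hball this
  simp [hr', hne] at this

lemma dense_range_Phi : DenseRange Phi := by
  rw [DenseRange, dense_iff_inter_open]
  rintro U hU ⟨z, hz⟩
  obtain ⟨F, u, hu, hsub⟩ := isOpen_pi_iff.1 hU z hz
  choose q hq1 hq2 hq3 using fun r : ℝ => exists_rat_interval F r
  refine ⟨Phi ((F.filter (fun r => z r = true)).image q), hsub ?_, mem_range_self _⟩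
  intro r hr
  have hrF : r ∈ F := by simpa using hr
  have hkey : Phi ((F.filter (fun r => z r = true)).image q) r = z r := by
    by_cases hzr : z r = true
    · rw [hzr, Phi_eq_true_iff]
      exact ⟨q r, Finset.mem_image_of_mem _ (by simp [hrF, hzr]), hq1 r, hq2 r⟩
    · have hzr' : z r = false := by simpa using hzr
      rw [hzr']
      rw [Bool.eq_false_iff]
      intro hcon
      rw [Phi_eq_true_iff] at hcon
      obtain ⟨p, hp, hp1, hp2⟩ := hcon
      obtain ⟨r', hr', rfl⟩ := Finset.mem_image.1 hp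
      have hr'F : r' ∈ F ∧ z r' = true := by simpa using hr'
      have hne : r ≠ r' := by
        rintro rfl
        exact hzr hr'F.2
      exact hq3 r' r hrF hne ⟨hp1, hp2⟩
  rw [hkey]
  exact (hu r hrF).2

/-! ### The flips of the cube -/

/-- flip the `i`-th coordinate. -/
noncomputable def flip (i : ℝ) (z : ℝ → Bool) : ℝ → Bool := Function.update z i (!(z i))

lemma flip_flip (i : ℝ) (z : ℝ → Bool) : flip i (flip i z) = z := by
  ext j
  by_cases h : j = i
  · subst h; simp [flip]
  · simp [flip, h]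

lemma continuous_flip (i : ℝ) : Continuous (flip i) := by
  unfold flip
  refine Continuous.update continuous_id i ?_
  exact (continuous_of_discreteTopology (f := fun b : Bool => !b)).comp
    (continuous_apply (A := fun _ : ℝ => Bool) i)

/-! ### A minimal filter -/

/-- The filters all of whose members have dense image. -/
def DenseFilter (f : Filter D) : Prop :=
  ∀ O : Set (ℝ → Bool), IsOpen O → O.Nonempty → ∃ᶠ d in f, Phi d ∈ O

lemma exists_minimal_denseFilter : ∃ f : Filter D, DenseFilter f ∧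
    ∀ g : Filter D, DenseFilter g → g ≤ f → f ≤ g := by
  have key := @zorn_le₀ (Filter D)ᵒᵈ _ {f | DenseFilter (OrderDual.ofDual f)} ?_
  · obtain ⟨m, hm⟩ := key
    refine ⟨OrderDual.ofDual m, hm.prop, ?_⟩
    intro g hg hgm
    exact hm.le_of_ge (y := OrderDual.toDual g) hg hgm
  · intro c hc hchain
    rcases c.eq_empty_or_nonempty with rfl | hne
    · refine ⟨OrderDual.toDual ⊤, ?_, by simp⟩
      intro O hO hOne
      obtain ⟨z, hz⟩ := dense_range_Phi.exists_mem_open hO hOne
      simp only [OrderDual.ofDual_toDual, Filter.frequently_top]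
      exact ⟨z, hz⟩
    · refine ⟨OrderDual.toDual (⨅ a ∈ c, OrderDual.ofDual a), ?_, ?_⟩
      · intro O hO hOne
        have hdir : DirectedOn ((fun a : (Filter D)ᵒᵈ => OrderDual.ofDual a) ⁻¹'o (· ≥ ·)) c := by
          rintro a ha b hb
          rcases hchain.total ha hb with h | h
          · exact ⟨b, hb, h, le_refl _⟩
          · exact ⟨a, ha, le_refl _, h⟩
        intro hcon
        have h1 : {d | ¬ Phi d ∈ O} ∈ (⨅ a ∈ c, OrderDual.ofDual a) := hcon
        rw [Filter.mem_biInf_of_directed hdir hne] at h1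
        obtain ⟨a, ha, h2⟩ := h1
        exact hc ha O hO hOne h2
      · intro z hz
        exact (iInf₂_le (f := fun (a : (Filter D)ᵒᵈ) (_ : a ∈ c) => OrderDual.ofDual a) z hz)


/-! ### The forcing relation -/

/-- `O` forces `T` modulo `f`. -/
def Forces (f : Filter D) (O : Set (ℝ → Bool)) (T : Set D) : Prop :=
  ∀ᶠ d in f, Phi d ∈ O → d ∈ T

lemma Forces.mono {f : Filter D} {O O' : Set (ℝ → Bool)} {T : Set D} (h : Forces f O T)
    (hO : O' ⊆ O) : Forces f O' T :=
  Filter.Eventually.mono h (fun _ hd hd' => hd (hO hd'))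

lemma Forces.mono_right {f : Filter D} {O : Set (ℝ → Bool)} {T T' : Set D} (h : Forces f O T)
    (hT : T ⊆ T') : Forces f O T' :=
  Filter.Eventually.mono h (fun _ hd hd' => hT (hd hd'))

lemma forces_inter {f : Filter D} {O : Set (ℝ → Bool)} {T T' : Set D} :
    Forces f O (T ∩ T') ↔ Forces f O T ∧ Forces f O T' := by
  constructor
  · intro h
    exact ⟨h.mono_right inter_subset_left, h.mono_right inter_subset_right⟩
  · rintro ⟨h, h'⟩
    filter_upwards [h, h'] with d h1 h2 h3
    exact ⟨h1 h3, h2 h3⟩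

lemma not_forces_both {f : Filter D} (hf : DenseFilter f) {O : Set (ℝ → Bool)} (hO : IsOpen O)
    (hne : O.Nonempty) {T : Set D} (h : Forces f O T) (h' : Forces f O Tᶜ) : False := by
  apply hf O hO hne
  filter_upwards [h, h'] with d h1 h2 h3
  exact h2 h3 (h1 h3)

lemma exists_forces_compl {f : Filter D} (hf : DenseFilter f)
    (hmin : ∀ g : Filter D, DenseFilter g → g ≤ f → f ≤ g) {O : Set (ℝ → Bool)} (hO : IsOpen O)
    {T : Set D} (h : ¬ Forces f O T) :
    ∃ O' : Set (ℝ → Bool), IsOpen O' ∧ O'.Nonempty ∧ O' ⊆ O ∧ Forces f O' Tᶜ := by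
  by_contra hcon
  push Not at hcon
  apply h
  have hden : DenseFilter (f ⊓ 𝓟 {d | Phi d ∈ O → d ∈ T}) := by
    intro O₁ hO₁ hne₁
    rw [Filter.frequently_inf_principal]
    by_contra hnf
    rw [Filter.not_frequently] at hnf
    have h1 : ∀ᶠ d in f, Phi d ∈ O₁ → Phi d ∈ O ∧ d ∉ T := by
      filter_upwards [hnf] with d hd hd1
      by_contra hc
      exact hd ⟨fun hO' => by_contra fun hT => hc ⟨hO', hT⟩, hd1⟩
    have hne : (O₁ ∩ O).Nonempty := by
      by_contra hemp
      rw [not_nonempty_iff_eq_empty] at hemp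
      apply hf O₁ hO₁ hne₁
      filter_upwards [h1] with d hd hd1
      have : Phi d ∈ O₁ ∩ O := ⟨hd1, (hd hd1).1⟩
      rw [hemp] at this
      exact this
    apply hcon (O₁ ∩ O) (hO₁.inter hO) hne inter_subset_right
    filter_upwards [h1] with d hd hd1
    exact (hd hd1.1).2
  have := hmin _ hden inf_le_left
  have h2 : {d | Phi d ∈ O → d ∈ T} ∈ f := this (mem_inf_of_right (mem_principal_self _))
  exact h2

/-- `T` is invariant under the flip of the `i`-th coordinate. -/
def Inv (f : Filter D) (i : ℝ) (T : Set D) : Prop :=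
  ∀ O : Set (ℝ → Bool), IsOpen O →
    (Forces f O T → Forces f (flip i ⁻¹' O) T) ∧ (Forces f O Tᶜ → Forces f (flip i ⁻¹' O) Tᶜ)

lemma flip_preimage_preimage (i : ℝ) (O : Set (ℝ → Bool)) :
    flip i ⁻¹' (flip i ⁻¹' O) = O := by
  ext z
  simp [flip_flip]

lemma flip_preimage_nonempty (i : ℝ) {O : Set (ℝ → Bool)} (h : O.Nonempty) :
    (flip i ⁻¹' O).Nonempty := by
  obtain ⟨z, hz⟩ := h
  exact ⟨flip i z, by simpa [flip_flip] using hz⟩

lemma Inv.inter {f : Filter D} (hf : DenseFilter f)
    (hmin : ∀ g : Filter D, DenseFilter g → g ≤ f → f ≤ g) {i : ℝ} {T T' : Set D}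
    (h : Inv f i T) (h' : Inv f i T') : Inv f i (T ∩ T') := by
  intro O hO
  constructor
  · intro hF
    rw [forces_inter] at hF ⊢
    exact ⟨(h O hO).1 hF.1, (h' O hO).1 hF.2⟩
  · intro hF
    by_contra hcon
    obtain ⟨O', hO', hne, hsub, hF'⟩ :=
      exists_forces_compl hf hmin (hO.preimage (continuous_flip i)) hcon
    rw [compl_compl, forces_inter] at hF'
    have h1 : Forces f (flip i ⁻¹' O') (T ∩ T') := by
      rw [forces_inter]
      exact ⟨(h O' hO').1 hF'.1, (h' O' hO').1 hF'.2⟩
    have h2 : flip i ⁻¹' O' ⊆ O := by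
      have := preimage_mono (f := flip i) hsub
      rwa [flip_preimage_preimage] at this
    exact not_forces_both hf (hO'.preimage (continuous_flip i)) (flip_preimage_nonempty i hne)
      h1 (hF.mono h2)

lemma inv_univ (f : Filter D) (i : ℝ) (hf : DenseFilter f)
    (hmin : ∀ g : Filter D, DenseFilter g → g ≤ f → f ≤ g) : Inv f i univ := by
  intro O hO
  constructor
  · intro _
    exact Filter.Eventually.of_forall (fun _ _ => mem_univ _)
  · intro hF
    by_contra hcon
    obtain ⟨O', hO', hne, hsub, hF'⟩ :=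
      exists_forces_compl hf hmin (hO.preimage (continuous_flip i)) hcon
    have h2 : flip i ⁻¹' O' ⊆ O := by
      have := preimage_mono (f := flip i) hsub
      rwa [flip_preimage_preimage] at this
    refine not_forces_both hf (hO'.preimage (continuous_flip i)) (flip_preimage_nonempty i hne)
      (T := univ) ?_ (hF.mono h2)
    exact Filter.Eventually.of_forall (fun _ _ => mem_univ _)

/-- Every nonempty open set contains a nonempty open set which is invariant under all but
countably many flips. -/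
lemma exists_open_invariant {O : Set (ℝ → Bool)} (hO : IsOpen O) {z : ℝ → Bool} (hz : z ∈ O) :
    ∃ O' : Set (ℝ → Bool), IsOpen O' ∧ z ∈ O' ∧ O' ⊆ O ∧ {i | flip i ⁻¹' O' ≠ O'}.Countable := by
  obtain ⟨F, u, hu, hsub⟩ := isOpen_pi_iff.1 hO z hz
  refine ⟨(F : Set ℝ).pi u, isOpen_set_pi F.finite_toSet (fun a ha => (hu a ha).1),
    fun a ha => (hu a ha).2, hsub, ?_⟩
  refine (F.finite_toSet.countable).mono ?_
  intro i hi
  by_contra hiF
  apply hi
  ext w
  simp only [mem_preimage, Set.mem_pi]
  constructor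
  · intro h a ha
    have := h a ha
    have hne : a ≠ i := by rintro rfl; exact hiF ha
    simpa [flip, hne] using this
  · intro h a ha
    have := h a ha
    have hne : a ≠ i := by rintro rfl; exact hiF ha
    simpa [flip, hne] using this

lemma countable_not_inv {f : Filter D} (hf : DenseFilter f)
    (hmin : ∀ g : Filter D, DenseFilter g → g ≤ f → f ≤ g) (T : Set D) :
    {i | ¬ Inv f i T}.Countable := by
  classical
  -- for each `d` choose a set deciding `T` containing `Phi d`, when possible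
  let P : D → Set (ℝ → Bool) → Prop := fun d O =>
    IsOpen O ∧ Phi d ∈ O ∧ {i | flip i ⁻¹' O ≠ O}.Countable ∧ (Forces f O T ∨ Forces f O Tᶜ)
  let C : D → Set (ℝ → Bool) := fun d => if h : ∃ O, P d O then h.choose else univ
  have hC : ∀ d, (∃ O, P d O) → P d (C d) := by
    intro d h
    simp only [C, dif_pos h]
    exact h.choose_spec
  have hCc : ∀ d, {i | flip i ⁻¹' (C d) ≠ C d}.Countable := by
    intro d
    by_cases h : ∃ O, P d O
    · exact (hC d h).2.2.1
    · simp [C, dif_neg h]
  -- density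
  have hdens : ∀ O : Set (ℝ → Bool), IsOpen O → O.Nonempty →
      ∃ d, Phi d ∈ O ∧ P d (C d) := by
    intro O hO hne
    obtain ⟨O₁, hO₁, hne₁, hsub₁, hdec⟩ : ∃ O₁ : Set (ℝ → Bool), IsOpen O₁ ∧ O₁.Nonempty ∧
        O₁ ⊆ O ∧ (Forces f O₁ T ∨ Forces f O₁ Tᶜ) := by
      by_cases h : Forces f O T
      · exact ⟨O, hO, hne, Subset.rfl, Or.inl h⟩
      · obtain ⟨O', h1, h2, h3, h4⟩ := exists_forces_compl hf hmin hO h
        exact ⟨O', h1, h2, h3, Or.inr h4⟩
    obtain ⟨z, hz⟩ := hne₁
    obtain ⟨O₂, hO₂, hz₂, hsub₂, hcount⟩ := exists_open_invariant hO₁ hz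
    obtain ⟨d, hd⟩ := dense_range_Phi.exists_mem_open hO₂ ⟨z, hz₂⟩
    refine ⟨d, hsub₁ (hsub₂ hd), hC d ⟨O₂, hO₂, hd, hcount, ?_⟩⟩
    rcases hdec with h | h
    · exact Or.inl (h.mono hsub₂)
    · exact Or.inr (h.mono hsub₂)
  have hkey : ∀ i, (∀ d, flip i ⁻¹' (C d) = C d) → ∀ T' : Set D, (T' = T ∨ T' = Tᶜ) →
      ∀ O : Set (ℝ → Bool), IsOpen O → Forces f O T' → Forces f (flip i ⁻¹' O) T' := by
    intro i hi T' hT' O hO hF
    by_contra hcon
    obtain ⟨O', hO', hne, hsub, hF'⟩ :=
      exists_forces_compl hf hmin (hO.preimage (continuous_flip i)) hcon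
    obtain ⟨d, hd, hPd⟩ := hdens O' hO' hne
    have hopen : IsOpen (O' ∩ C d) := hO'.inter hPd.1
    have hnon : (O' ∩ C d).Nonempty := ⟨Phi d, hd, hPd.2.1⟩
    have h1 : ¬ Forces f (C d) T' := fun h =>
      not_forces_both hf hopen hnon (h.mono inter_subset_right) (hF'.mono inter_subset_left)
    have h2 : Forces f (C d) T'ᶜ := by
      rcases hPd.2.2.2 with h | h
      · rcases hT' with rfl | rfl
        · exact absurd h h1
        · rwa [compl_compl]
      · rcases hT' with rfl | rfl
        · exact h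
        · exact absurd h h1
    have h3 : flip i ⁻¹' (O' ∩ C d) ⊆ O := by
      rintro z ⟨hz, _⟩
      have := hsub hz
      simpa [flip_flip] using this
    have h4 : flip i ⁻¹' (O' ∩ C d) ⊆ C d := by
      rw [preimage_inter, hi d]
      exact inter_subset_right
    exact not_forces_both hf (hopen.preimage (continuous_flip i)) (flip_preimage_nonempty i hnon)
      (hF.mono h3) (h2.mono h4)
  refine (countable_iUnion hCc).mono ?_
  intro i hi
  by_contra hnot
  simp only [mem_iUnion, mem_ofPred_eq, not_exists, not_not] at hnot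
  apply hi
  intro O hO
  exact ⟨hkey i hnot T (Or.inl rfl) O hO, hkey i hnot Tᶜ (Or.inr rfl) O hO⟩

lemma forces_preimage {f : Filter D} (hf : DenseFilter f) {O W : Set (ℝ → Bool)} (hO : IsOpen O)
    (hW : IsClosed W) : Forces f O (Phi ⁻¹' W) ↔ O ⊆ W := by
  constructor
  · intro h
    by_contra hcon
    have hne : (O \ W).Nonempty := by
      obtain ⟨z, hz, hz'⟩ := not_subset.1 hcon
      exact ⟨z, hz, hz'⟩
    apply hf (O \ W) (hO.sdiff hW) hne
    filter_upwards [h] with d hd hd'
    exact hd'.2 (hd hd'.1)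
  · intro h
    exact Filter.Eventually.of_forall (fun d hd => h hd)

lemma inv_coord {f : Filter D} (hf : DenseFilter f) {i j : ℝ} (hij : i ≠ j) (b : Bool) :
    Inv f j {d | Phi d i = b} := by
  have hclosed : ∀ c : Set Bool, IsClosed {z : ℝ → Bool | z i ∈ c} := fun c =>
    (isClosed_discrete c).preimage (continuous_apply (A := fun _ : ℝ => Bool) i)
  have key : ∀ c : Set Bool, ∀ O : Set (ℝ → Bool), IsOpen O →
      Forces f O (Phi ⁻¹' {z | z i ∈ c}) → Forces f (flip j ⁻¹' O) (Phi ⁻¹' {z | z i ∈ c}) := by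
    intro c O hO h
    rw [forces_preimage hf hO (hclosed c)] at h
    rw [forces_preimage hf (hO.preimage (continuous_flip j)) (hclosed c)]
    intro z hz
    have := h hz
    simpa [flip, hij] using this
  intro O hO
  refine ⟨key {b} O hO, ?_⟩
  have h2 : ({d | Phi d i = b} : Set D)ᶜ = Phi ⁻¹' {z | z i ∈ ({b} : Set Bool)ᶜ} := by
    rfl
  rw [h2]
  exact key _ O hO

lemma compl_singleton_mem {f : Filter D} (hf : DenseFilter f)
    (hmin : ∀ g : Filter D, DenseFilter g → g ≤ f → f ≤ g) (d : D) : ({d}ᶜ : Set D) ∈ f := by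
  have hden : DenseFilter (f ⊓ 𝓟 ({d}ᶜ : Set D)) := by
    intro O hO hne
    rw [Filter.frequently_inf_principal]
    have hne' : (O \ {Phi d}).Nonempty := by
      obtain ⟨z, hz⟩ := hne
      obtain ⟨O', hO', hz', hsub, hc⟩ := exists_open_invariant hO hz
      obtain ⟨i, hi⟩ : ∃ i : ℝ, flip i ⁻¹' O' = O' := by
        by_contra hcon
        push Not at hcon
        apply Cardinal.not_countable_real
        exact hc.mono (fun i _ => hcon i)
      have hz2 : flip i z ∈ O' := by
        have : z ∈ flip i ⁻¹' O' := by rw [hi]; exact hz'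
        exact this
      by_cases h : z = Phi d
      · refine ⟨flip i z, hsub hz2, ?_⟩
        intro h2
        rw [mem_singleton_iff, ← h] at h2
        have := congrFun h2 i
        simp [flip] at this
      · exact ⟨z, hz, h⟩
    refine (hf _ (hO.sdiff isClosed_singleton) hne').mono ?_
    rintro d' ⟨h1, h2⟩
    refine ⟨?_, h1⟩
    rintro rfl
    exact h2 rfl
  exact (hmin _ hden inf_le_left) (mem_inf_of_right (mem_principal_self _))

/-- The key lemma on ultrafilters: for a suitable ultrafilter `p` on the countable set `D` there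
is an injective family of ultrafilters indexed by the reals, all different from `p`, such that
every member of `p` belongs to all but countably many of them. -/
theorem exists_ultrafilters : ∃ (p : Ultrafilter D) (x : ℝ → Ultrafilter D),
    Function.Injective x ∧ (∀ i, x i ≠ p) ∧ (∀ T ∈ p, {i | T ∉ x i}.Countable) ∧
    (∀ d, {d}ᶜ ∈ p) ∧ (∀ i d, {d}ᶜ ∈ x i) := by
  obtain ⟨f, hf, hmin⟩ := exists_minimal_denseFilter
  have hfne : f.NeBot := by
    refine ⟨fun h => ?_⟩
    have := hf univ isOpen_univ univ_nonempty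
    rw [h] at this
    simp at this
  let p : Ultrafilter D := Ultrafilter.of f
  have hp : (p : Filter D) ≤ f := Ultrafilter.of_le f
  -- the ultrafilter `x i b`
  have hex : ∀ i : ℝ, ∀ b : Bool, ∃ x : Ultrafilter D, (∀ T ∈ p, Inv f i T → T ∈ x) ∧
      {d | Phi d i = b} ∈ x ∧ (x : Filter D) ≤ f := by
    intro i b
    let g : Filter D :=
      { sets := {R | ∃ T ∈ p, Inv f i T ∧ ∀ᶠ d in f, d ∈ T → d ∈ R}
        univ_sets := ⟨univ, Filter.univ_mem, inv_univ f i hf hmin,
          Filter.Eventually.of_forall (fun _ _ => mem_univ _)⟩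
        sets_of_superset := by
          rintro R R' ⟨T, hT, hinv, hR⟩ hsub
          exact ⟨T, hT, hinv, hR.mono (fun d hd hd' => hsub (hd hd'))⟩
        inter_sets := by
          rintro R R' ⟨T, hT, hinv, hR⟩ ⟨T', hT', hinv', hR'⟩
          refine ⟨T ∩ T', Filter.inter_mem hT hT', hinv.inter hf hmin hinv', ?_⟩
          filter_upwards [hR, hR'] with d h1 h2 h3
          exact ⟨h1 h3.1, h2 h3.2⟩ }
    have hne : (g ⊓ 𝓟 {d | Phi d i = b}).NeBot := by
      rw [← Filter.frequently_mem_iff_neBot]
      rintro hcon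
      have hcon' : {d | ¬ d ∈ {d | Phi d i = b}} ∈ g := hcon
      obtain ⟨T, hT, hinv, hR⟩ := hcon'
      -- hR : eventually, d ∈ T → Phi d i ≠ b
      have hopen : ∀ c : Bool, IsOpen {z : ℝ → Bool | z i = c} := fun c =>
        (isOpen_discrete {c}).preimage (continuous_apply (A := fun _ : ℝ => Bool) i)
      have h1 : Forces f {z : ℝ → Bool | z i = b} Tᶜ := by
        filter_upwards [hR] with d hd hd1 hd2
        exact hd hd2 hd1
      have h2 := (hinv _ (hopen b)).2 h1
      have h3 : ∀ᶠ d in f, d ∈ Tᶜ := by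
        filter_upwards [h1, h2] with d hd1 hd2
        by_cases hb : Phi d i = b
        · exact hd1 hb
        · apply hd2
          simp only [mem_preimage, mem_ofPred_eq, flip, Function.update_self]
          cases hPhi : Phi d i <;> cases b <;> simp_all
      have h4 : Tᶜ ∈ p := hp h3
      exact (Ultrafilter.compl_mem_iff_notMem.1 h4) hT
    refine ⟨Ultrafilter.of (g ⊓ 𝓟 {d | Phi d i = b}), ?_, ?_, ?_⟩
    · intro T hT hinv
      have : T ∈ g := ⟨T, hT, hinv, Filter.Eventually.of_forall (fun _ h => h)⟩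
      exact Ultrafilter.of_le _ (mem_inf_of_left this)
    · exact Ultrafilter.of_le _ (mem_inf_of_right (mem_principal_self _))
    · intro R hR
      have : R ∈ g := ⟨univ, Filter.univ_mem, inv_univ f i hf hmin,
        Filter.mem_of_superset hR (fun d hd _ => hd)⟩
      exact Ultrafilter.of_le _ (mem_inf_of_left this)
  choose y hy1 hy2 hy3 using hex
  -- the value of `p` at the coordinate `i`
  have hval : ∀ i : ℝ, ∃ b : Bool, {d | Phi d i = b} ∈ p := by
    intro i
    by_cases h : {d | Phi d i = true} ∈ p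
    · exact ⟨true, h⟩
    · refine ⟨false, ?_⟩
      rw [← Ultrafilter.compl_mem_iff_notMem] at h
      filter_upwards [h] with d hd
      simpa using hd
  choose v hv using hval
  have hinvS : ∀ i j : ℝ, i ≠ j → ∀ b, Inv f j {d | Phi d i = b} :=
    fun i j hij b => inv_coord hf hij b
  refine ⟨p, fun i => y i (!(v i)), ?_, ?_, ?_, fun d => hp (compl_singleton_mem hf hmin d),
    fun i d => hy3 i _ (compl_singleton_mem hf hmin d)⟩
  · intro i j hij
    by_contra hne
    have h1 : {d | Phi d i = v i} ∈ y j (!(v j)) :=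
      hy1 j _ _ (hv i) (hinvS i j hne _)
    have h2 : {d | Phi d i = !(v i)} ∈ y i (!(v i)) := hy2 i _
    simp only at hij
    rw [← hij] at h1
    have h3 := Filter.inter_mem h1 h2
    have h4 : {d | Phi d i = v i} ∩ {d | Phi d i = !(v i)} = ∅ := by
      ext d
      simp only [mem_inter_iff, mem_ofPred_eq, mem_empty_iff_false, iff_false, not_and]
      intro h
      rw [h]
      simp
    rw [h4] at h3
    exact Filter.empty_notMem _ h3
  · intro i hi
    have h2 : {d | Phi d i = !(v i)} ∈ y i (!(v i)) := hy2 i _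
    simp only at hi
    rw [hi] at h2
    have h3 := Filter.inter_mem (hv i) h2
    have h4 : {d | Phi d i = v i} ∩ {d | Phi d i = !(v i)} = ∅ := by
      ext d
      simp only [mem_inter_iff, mem_ofPred_eq, mem_empty_iff_false, iff_false, not_and]
      intro h
      rw [h]
      simp
    rw [h4] at h3
    exact Filter.empty_notMem _ h3
  · intro T hT
    refine (countable_not_inv hf hmin T).mono ?_
    intro i hi hinv
    exact hi (hy1 i _ T hT hinv)

end Pool.Agent.Lib.MP_76989b_gt
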