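import Mathlib
import Pool.Agent.Lib.MP_76989b_gt.Defs
import Pool.Agent.Lib.MP_76989b_gt.Ultra

set_option autoImplicit false

open Set Filter Topology

namespace Pool.Agent.Lib.MP_76989b_gt

/-! ### Spaces with a dense open discrete set and a closed discrete remainder -/

section Sp

variable {W Z : Type}

/-- The space with set of isolated points `W` and remainder `Z`; the neighbourhoods of `z : Z`
are given by the filter `H z` on `W`. -/
def Sp (_H : Z → Filter W) : Type := W ⊕ Z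

variable (H : Z → Filter W)

/-- isolated points -/
def Sp.iso (w : W) : Sp H := (Sum.inl w : W ⊕ Z)

/-- points of the remainder -/
def Sp.lim (z : Z) : Sp H := (Sum.inr z : W ⊕ Z)

instance : TopologicalSpace (Sp H) where
  IsOpen G := ∀ z, Sp.lim H z ∈ G → Sp.iso H ⁻¹' G ∈ H z
  isOpen_univ := fun z _ => by simp
  isOpen_inter := by
    intro s t hs ht z hz
    rw [preimage_inter]
    exact Filter.inter_mem (hs z hz.1) (ht z hz.2)
  isOpen_sUnion := by
    intro S hS z hz
    obtain ⟨t, ht, hzt⟩ := hz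
    exact Filter.mem_of_superset (hS t ht z hzt) (preimage_mono (subset_sUnion_of_mem ht))

variable {H}

lemma Sp.isOpen_iff {G : Set (Sp H)} :
    IsOpen G ↔ ∀ z, Sp.lim H z ∈ G → Sp.iso H ⁻¹' G ∈ H z := Iff.rfl

lemma Sp.iso_ne_lim (w : W) (z : Z) : Sp.iso H w ≠ Sp.lim H z := by
  intro h; exact Sum.inl_ne_inr h

lemma Sp.iso_injective : Function.Injective (Sp.iso H) := Sum.inl_injective

lemma Sp.lim_injective : Function.Injective (Sp.lim H) := Sum.inr_injective

lemma Sp.cases (x : Sp H) : (∃ w, x = Sp.iso H w) ∨ (∃ z, x = Sp.lim H z) := by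
  rcases x with w | z
  · exact Or.inl ⟨w, rfl⟩
  · exact Or.inr ⟨z, rfl⟩

lemma Sp.isOpen_image_iso (T : Set W) : IsOpen (Sp.iso H '' T) := by
  rw [Sp.isOpen_iff]
  rintro z ⟨w, _, hw⟩
  exact absurd hw (Sp.iso_ne_lim w z)

/-- basic neighbourhood of a point of the remainder. -/
def Sp.nb (H : Z → Filter W) (z : Z) (T : Set W) : Set (Sp H) :=
  insert (Sp.lim H z) (Sp.iso H '' T)

lemma Sp.iso_mem_nb {z : Z} {T : Set W} {w : W} : Sp.iso H w ∈ Sp.nb H z T ↔ w ∈ T := by
  unfold Sp.nb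
  rw [mem_insert_iff]
  constructor
  · rintro (h | ⟨w', hw', h⟩)
    · exact absurd h (Sp.iso_ne_lim w z)
    · rwa [← Sp.iso_injective h]
  · intro h
    exact Or.inr ⟨w, h, rfl⟩

lemma Sp.isOpen_nb {z : Z} {T : Set W} (hT : T ∈ H z) : IsOpen (Sp.nb H z T) := by
  rw [Sp.isOpen_iff]
  rintro z' hz'
  have hz : z' = z := by
    rcases hz' with h | ⟨w, _, hw⟩
    · exact Sp.lim_injective h
    · exact absurd hw (Sp.iso_ne_lim w z')
  subst hz
  filter_upwards [hT] with w hw
  exact Sp.iso_mem_nb.2 hw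

lemma Sp.lim_mem_nb {z : Z} {T : Set W} : Sp.lim H z ∈ Sp.nb H z T := mem_insert _ _

lemma Sp.t2 (h1 : ∀ z w, {w}ᶜ ∈ H z)
    (h2 : ∀ z z', z ≠ z' → ∃ T ∈ H z, ∃ T' ∈ H z', Disjoint T T') : T2Space (Sp H) := by
  refine ⟨?_⟩
  intro x y hxy
  have hiw : ∀ (w : W) (z : Z), ∃ u v : Set (Sp H), IsOpen u ∧ IsOpen v ∧ Sp.iso H w ∈ u ∧
      Sp.lim H z ∈ v ∧ Disjoint u v := by
    intro w z
    refine ⟨Sp.iso H '' {w}, Sp.nb H z {w}ᶜ, Sp.isOpen_image_iso _, Sp.isOpen_nb (h1 z w),
      ⟨w, rfl, rfl⟩, Sp.lim_mem_nb, ?_⟩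
    rw [Set.disjoint_left]
    rintro _ ⟨w', hw', rfl⟩ hmem
    exact (Sp.iso_mem_nb.1 hmem) hw'
  rcases Sp.cases x with ⟨w, rfl⟩ | ⟨z, rfl⟩ <;> rcases Sp.cases y with ⟨w', rfl⟩ | ⟨z', rfl⟩
  · refine ⟨Sp.iso H '' {w}, Sp.iso H '' {w'}, Sp.isOpen_image_iso _, Sp.isOpen_image_iso _,
      ⟨w, rfl, rfl⟩, ⟨w', rfl, rfl⟩, ?_⟩
    rw [Set.disjoint_left]
    rintro _ ⟨a, ha, rfl⟩ ⟨b, hb, hab⟩
    apply hxy
    rw [mem_singleton_iff] at ha hb
    rw [← ha, ← hab, hb]
  · exact hiw w z'
  · obtain ⟨u, v, hu, hv, h3, h4, h5⟩ := hiw w' z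
    exact ⟨v, u, hv, hu, h4, h3, h5.symm⟩
  · obtain ⟨T, hT, T', hT', hd⟩ := h2 z z' (fun h => hxy (by rw [h]))
    refine ⟨Sp.nb H z T, Sp.nb H z' T', Sp.isOpen_nb hT, Sp.isOpen_nb hT', Sp.lim_mem_nb,
      Sp.lim_mem_nb, ?_⟩
    rw [Set.disjoint_left]
    intro a ha ha'
    rcases Sp.cases a with ⟨w, rfl⟩ | ⟨z'', rfl⟩
    · exact (Set.disjoint_left.1 hd) (Sp.iso_mem_nb.1 ha) (Sp.iso_mem_nb.1 ha')
    · have e1 : z'' = z := by
        rcases ha with h | ⟨w, _, hw⟩
        · exact Sp.lim_injective h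
        · exact absurd hw (Sp.iso_ne_lim w z'')
      have e2 : z'' = z' := by
        rcases ha' with h | ⟨w, _, hw⟩
        · exact Sp.lim_injective h
        · exact absurd hw (Sp.iso_ne_lim w z'')
      exact hxy (by rw [← e1, ← e2])

lemma Sp.frequently_of_mem_closure {G : Set (Sp H)} (hG : IsOpen G) {z : Z} [(H z).NeBot]
    (hz : Sp.lim H z ∈ closure G) : ∃ᶠ w in H z, Sp.iso H w ∈ G := by
  by_contra hcon
  rw [Filter.not_frequently] at hcon
  have hopen := Sp.isOpen_nb (T := {w | Sp.iso H w ∉ G}) hcon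
  obtain ⟨y, hy1, hy2⟩ := mem_closure_iff.1 hz _ hopen Sp.lim_mem_nb
  rcases hy1 with rfl | ⟨w, hw, rfl⟩
  · have h1 := Sp.isOpen_iff.1 hG z hy2
    obtain ⟨w, hw1, hw2⟩ := (Filter.inter_mem h1 hcon : _ ∩ _ ∈ H z) |> Filter.nonempty_of_mem
    exact hw2 hw1
  · exact hw hy2

lemma Sp.mem_interior_closure {G : Set (Sp H)} {z : Z} [(H z).NeBot]
    (hz : Sp.iso H ⁻¹' G ∈ H z) : Sp.lim H z ∈ interior (closure G) := by
  rw [mem_interior]
  refine ⟨Sp.nb H z (Sp.iso H ⁻¹' G), ?_, Sp.isOpen_nb hz, Sp.lim_mem_nb⟩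
  rintro y (rfl | ⟨w, hw, rfl⟩)
  · rw [mem_closure_iff]
    intro O hO hzO
    have h1 := Sp.isOpen_iff.1 hO z hzO
    obtain ⟨w, hw1, hw2⟩ := (Filter.inter_mem h1 hz : _ ∩ _ ∈ H z) |> Filter.nonempty_of_mem
    exact ⟨Sp.iso H w, hw1, hw2⟩
  · exact subset_closure hw

end Sp

/-! ### A sufficient condition for strong selections -/

/-- If there is a finite set `P` such that every minimally bounded set containing `P` is
co-countable, then one can select from each sequence of elements of `Ω^s` a sequence such that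
every point is in all but finitely many of its terms. -/
lemma exists_selection {X : Type*} [TopologicalSpace X] (P : Set X) (hP : P.Finite)
    (hPc : ∀ A : Set X, MinimallyBounded A → P ⊆ A → Aᶜ.Countable)
    (U : ℕ → Set (Set X)) (hU : ∀ n, U n ∈ OmegaS X) :
    ∃ V : ℕ → Set X, (∀ n, V n ∈ U n) ∧ ∀ x, ∀ᶠ n in atTop, x ∈ V n := by
  classical
  -- a choice of members containing a given finite set together with `P`
  have hch : ∀ (n : ℕ) (F : Finset X), ∃ A ∈ U n, (F : Set X) ∪ P ⊆ A := fun n F =>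
    (hU n).2.2 _ (F.finite_toSet.union hP)
  choose a ha1 ha2 using hch
  have hac : ∀ n F, (a n F)ᶜ.Countable := fun n F =>
    hPc _ ((hU n).1 _ (ha1 n F)) (subset_union_right.trans (ha2 n F))
  -- closing off
  let step : Set X → Set X := fun Y => Y ∪ ⋃ (n : ℕ), ⋃ (F ∈ {F : Finset X | (F : Set X) ⊆ Y}),
    (a n F)ᶜ
  have hstep : ∀ Y : Set X, Y.Countable → (step Y).Countable := by
    intro Y hY
    refine hY.union (countable_iUnion fun n => ?_)
    refine Set.Countable.biUnion ?_ (fun F _ => hac n F)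
    have h1 := Set.countable_ofPred_finite_subset hY
    have h2 := h1.preimage_of_injOn (f := fun F : Finset X => (F : Set X))
      (fun F _ F' _ h => Finset.coe_injective h)
    refine h2.mono ?_
    intro F hF
    exact ⟨F.finite_toSet, hF⟩
  let Ys : ℕ → Set X := fun n => step^[n] ∅
  have hYc : ∀ n, (Ys n).Countable := by
    intro n
    induction n with
    | zero => exact countable_empty
    | succ n ih =>
      simp only [Ys, Function.iterate_succ_apply']
      exact hstep _ ih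
  have hmono : Monotone Ys := by
    refine monotone_nat_of_le_succ fun n => ?_
    simp only [Ys, Function.iterate_succ_apply']
    exact subset_union_left
  let Y : Set X := ⋃ n, Ys n
  have hY : Y.Countable := countable_iUnion hYc
  have hclosed : ∀ (n : ℕ) (F : Finset X), (F : Set X) ⊆ Y → (a n F)ᶜ ⊆ Y := by
    intro n F hF
    obtain ⟨m, hm⟩ : ∃ m, (F : Set X) ⊆ Ys m := by
      have := Directed.exists_mem_subset_of_finset_subset_biUnion (f := Ys)
        (directed_of_isDirected_le hmono) hF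
      exact this
    have h1 : (a n F)ᶜ ⊆ Ys (m + 1) := by
      simp only [Ys, Function.iterate_succ_apply']
      refine subset_union_of_subset_right ?_ _
      refine subset_iUnion_of_subset n ?_
      exact subset_biUnion_of_mem (u := fun F => (a n F)ᶜ) hm
    exact h1.trans (subset_iUnion _ _)
  obtain ⟨e, he⟩ := Set.countable_iff_exists_injOn.1 hY
  have hfin : ∀ n : ℕ, (Y ∩ e ⁻¹' Iic n).Finite := by
    intro n
    refine Set.Finite.of_injOn (f := e) (t := Iic n) ?_ ?_ (finite_Iic n)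
    · intro y hy; exact hy.2
    · exact he.mono inter_subset_left
  refine ⟨fun n => a n (hfin n).toFinset, fun n => ha1 _ _, ?_⟩
  intro x
  by_cases hx : x ∈ Y
  · filter_upwards [eventually_ge_atTop (e x)] with n hn
    apply ha2 n
    left
    simp only [Finite.coe_toFinset]
    exact ⟨hx, hn⟩
  · refine Filter.Eventually.of_forall fun n => ?_
    by_contra hxn
    apply hx
    refine hclosed n (hfin n).toFinset ?_ hxn
    simp


/-- A strong selection is a selection in the literal sense. -/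
lemma range_mem_gammaS {X : Type*} [TopologicalSpace X] {U : ℕ → Set (Set X)}
    (hU : ∀ n, U n ∈ OmegaS X) {V : ℕ → Set X} (hV : ∀ n, V n ∈ U n)
    (h : ∀ x, ∀ᶠ n in atTop, x ∈ V n) : range V ∈ GammaS X := by
  refine ⟨?_, ?_, ?_⟩
  · rintro _ ⟨n, rfl⟩
    exact (hU n).1 _ (hV n)
  · rw [eq_univ_iff_forall]
    intro x
    obtain ⟨n, hn⟩ := (h x).exists
    exact ⟨V n, mem_range_self n, hn⟩
  · intro x
    have h1 : {n | x ∉ V n}.Finite := by
      have := h x
      rw [← Nat.cofinite_eq_atTop, Filter.eventually_cofinite] at this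
      exact this
    refine (h1.image V).subset ?_
    rintro _ ⟨⟨n, rfl⟩, hn⟩
    exact ⟨n, hn, rfl⟩

/-- A strong selection from families not containing `X` has infinite range. -/
lemma range_infinite {X : Type*} {U : ℕ → Set (Set X)}
    (hU : ∀ n, univ ∉ U n) {V : ℕ → Set X} (hV : ∀ n, V n ∈ U n)
    (h : ∀ x, ∀ᶠ n in atTop, x ∈ V n) : (range V).Infinite := by
  intro hfin
  obtain ⟨A, -, hA⟩ : ∃ A ∈ range V, ∃ᶠ n in atTop, V n = A := by
    by_contra hcon
    push Not at hcon
    have h1 : ∀ᶠ n in atTop, ∀ A ∈ range V, V n ≠ A := by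
      rw [Filter.eventually_all_finite hfin]
      intro A hA
      exact hcon A hA
    obtain ⟨n, hn⟩ := h1.exists
    exact hn (V n) (mem_range_self n) rfl
  have hAu : A = univ := by
    rw [eq_univ_iff_forall]
    intro x
    obtain ⟨n, hn1, hn2⟩ := (hA.and_eventually (h x)).exists
    rwa [← hn1]
  obtain ⟨n, hn⟩ := hA.exists
  apply hU n
  rw [← hAu, ← hn]
  exact hV n

/-! ### The concrete space -/

section Concrete

variable (p : Ultrafilter D) (x : ℝ → Ultrafilter D)

/-- The neighbourhood filters of the non-isolated points. -/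
def HH (z : ℝ ⊕ Bool) : Filter (D × Bool) :=
  match z with
  | Sum.inl i => Filter.comap Prod.fst (x i : Filter D)
  | Sum.inr b => Filter.map (fun d => (d, b)) (p : Filter D)

instance (z : ℝ ⊕ Bool) : (HH p x z).NeBot := by
  rcases z with i | b
  · exact Filter.NeBot.comap_of_surj (x i).neBot' Prod.fst_surjective
  · exact Filter.map_neBot

lemma HH_t2 (hinj : Function.Injective x) (hne : ∀ i, x i ≠ p) (hp : ∀ d, {d}ᶜ ∈ p)
    (hx : ∀ i d, {d}ᶜ ∈ x i) : T2Space (Sp (HH p x)) := by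
  have hsep : ∀ a b : Ultrafilter D, a ≠ b → ∃ T ∈ a, Tᶜ ∈ b := by
    intro a b hab
    by_contra hcon
    push Not at hcon
    apply hab
    symm
    apply Ultrafilter.eq_of_le
    intro T hT
    have := hcon T hT
    rwa [Ultrafilter.compl_notMem_iff] at this
  apply Sp.t2
  · rintro (i | b) ⟨d, c⟩
    · refine ⟨{d}ᶜ, hx i d, ?_⟩
      rintro ⟨d', c'⟩ h h2
      rw [mem_singleton_iff, Prod.mk.injEq] at h2
      exact h h2.1
    · show _ ∈ Filter.map _ _
      rw [Filter.mem_map]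
      filter_upwards [hp d] with d' hd' h2
      rw [mem_singleton_iff, Prod.mk.injEq] at h2
      exact hd' h2.1
  · rintro (i | b) (j | c) hij
    · obtain ⟨T, hT, hT'⟩ := hsep (x i) (x j) (fun h => hij (by rw [hinj h]))
      refine ⟨Prod.fst ⁻¹' T, ⟨T, hT, Subset.rfl⟩, Prod.fst ⁻¹' Tᶜ, ⟨Tᶜ, hT', Subset.rfl⟩, ?_⟩
      exact Disjoint.preimage _ disjoint_compl_right
    · obtain ⟨T, hT, hT'⟩ := hsep (x i) p (hne i)
      refine ⟨Prod.fst ⁻¹' T, ⟨T, hT, Subset.rfl⟩, Prod.fst ⁻¹' Tᶜ, ?_, ?_⟩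
      · show _ ∈ Filter.map _ _
        rw [Filter.mem_map]
        exact hT'
      · exact Disjoint.preimage _ disjoint_compl_right
    · obtain ⟨T, hT, hT'⟩ := hsep p (x j) (hne j).symm
      refine ⟨Prod.fst ⁻¹' T, ?_, Prod.fst ⁻¹' Tᶜ, ⟨Tᶜ, hT', Subset.rfl⟩, ?_⟩
      · show _ ∈ Filter.map _ _
        rw [Filter.mem_map]
        exact hT
      · exact Disjoint.preimage _ disjoint_compl_right
    · refine ⟨Prod.snd ⁻¹' {b}, ?_, Prod.snd ⁻¹' {c}, ?_, ?_⟩
      · show _ ∈ Filter.map _ _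
        rw [Filter.mem_map]
        exact Filter.univ_mem' (fun _ => rfl)
      · show _ ∈ Filter.map _ _
        rw [Filter.mem_map]
        exact Filter.univ_mem' (fun _ => rfl)
      · apply Disjoint.preimage
        rw [Set.disjoint_singleton]
        intro h
        exact hij (by rw [h])

lemma HH_cocountable (hc : ∀ T ∈ p, {i | T ∉ x i}.Countable) (A : Set (Sp (HH p x)))
    (hA : MinimallyBounded A) (hP : range (fun b : Bool => Sp.lim (HH p x) (Sum.inr b)) ⊆ A) :
    Aᶜ.Countable := by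
  -- the trace of the interior on the two copies of `D`
  have h1 : ∀ b : Bool, {d | Sp.iso (HH p x) (d, b) ∈ interior A} ∈ p := by
    intro b
    have hb : Sp.lim (HH p x) (Sum.inr b) ∈ closure (interior A) := hA.1 (hP ⟨b, rfl⟩)
    have h2 := Sp.frequently_of_mem_closure isOpen_interior hb
    have h3 : ∃ᶠ d in (p : Filter D), Sp.iso (HH p x) (d, b) ∈ interior A := by
      have : ∃ᶠ w in Filter.map (fun d => (d, b)) (p : Filter D),
        Sp.iso (HH p x) w ∈ interior A := h2
      rwa [Filter.frequently_map] at this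
    exact (Ultrafilter.frequently_iff_eventually.1 h3)
  have hR : {d | Sp.iso (HH p x) (d, false) ∈ interior A} ∩
      {d | Sp.iso (HH p x) (d, true) ∈ interior A} ∈ p := Filter.inter_mem (h1 false) (h1 true)
  have hcount := hc _ hR
  have h4 : Aᶜ ⊆ range (Sp.iso (HH p x)) ∪ (fun i => Sp.lim (HH p x) (Sum.inl i)) ''
      {i | {d | Sp.iso (HH p x) (d, false) ∈ interior A} ∩
      {d | Sp.iso (HH p x) (d, true) ∈ interior A} ∉ x i} := by
    intro y hy
    rcases Sp.cases y with ⟨w, rfl⟩ | ⟨z, rfl⟩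
    · exact Or.inl ⟨w, rfl⟩
    · rcases z with i | b
      · right
        refine ⟨i, ?_, rfl⟩
        intro hi
        apply hy
        apply hA.2
        apply Sp.mem_interior_closure
        refine ⟨_, hi, ?_⟩
        rintro ⟨d, c⟩ ⟨hd1, hd2⟩
        have hd1' : Sp.iso (HH p x) (d, false) ∈ interior A := hd1
        have hd2' : Sp.iso (HH p x) (d, true) ∈ interior A := hd2
        have hd : Sp.iso (HH p x) (d, c) ∈ interior A := by
          cases c
          · exact hd1'
          · exact hd2'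
        have hd3 : Sp.iso (HH p x) (d, c) ∈ A := interior_subset hd
        exact hd3
      · exact absurd (hP ⟨b, rfl⟩) hy
  refine Set.Countable.mono h4 ((countable_range _).union (hcount.image _))

/-- The semi-regular sets between the regular open set `D × {false} ∪ {lim}` and its closure. -/
def SS (B : Set ℝ) : Set (Sp (HH p x)) :=
  {y | (∃ d, y = Sp.iso (HH p x) (d, false)) ∨ y = Sp.lim (HH p x) (Sum.inr false) ∨
    ∃ i ∈ B, y = Sp.lim (HH p x) (Sum.inl i)}

lemma iso_mem_SS {B : Set ℝ} {d : D} {b : Bool} :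
    Sp.iso (HH p x) (d, b) ∈ SS p x B ↔ b = false := by
  constructor
  · rintro (⟨d', h⟩ | h | ⟨i, _, h⟩)
    · have := Sp.iso_injective h
      rw [Prod.mk.injEq] at this
      exact this.2
    · exact absurd h (Sp.iso_ne_lim _ _)
    · exact absurd h (Sp.iso_ne_lim _ _)
  · rintro rfl
    exact Or.inl ⟨d, rfl⟩

lemma liml_mem_SS {B : Set ℝ} {i : ℝ} :
    Sp.lim (HH p x) (Sum.inl i) ∈ SS p x B ↔ i ∈ B := by
  constructor
  · rintro (⟨d', h⟩ | h | ⟨j, hj, h⟩)
    · exact absurd h.symm (Sp.iso_ne_lim _ _)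
    · have := Sp.lim_injective h
      exact absurd this (by simp)
    · have := Sp.lim_injective h
      rw [Sum.inl.injEq] at this
      rwa [this]
  · intro h
    exact Or.inr (Or.inr ⟨i, h, rfl⟩)

lemma limr_mem_SS {B : Set ℝ} {b : Bool} :
    Sp.lim (HH p x) (Sum.inr b) ∈ SS p x B ↔ b = false := by
  constructor
  · rintro (⟨d', h⟩ | h | ⟨j, hj, h⟩)
    · exact absurd h.symm (Sp.iso_ne_lim _ _)
    · have := Sp.lim_injective h
      rwa [Sum.inr.injEq] at this
    · have := Sp.lim_injective h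
      exact absurd this (by simp)
  · rintro rfl
    exact Or.inr (Or.inl rfl)

open Classical in
/-- The indicator function of `SS p x B`. -/
noncomputable def ind (B : Set ℝ) : Sp (HH p x) → ℝ := fun y => if y ∈ SS p x B then 1 else 0

lemma exists_iso_mem (B : Set ℝ) (y : Sp (HH p x)) (O : Set (Sp (HH p x))) (hO : IsOpen O)
    (hy : y ∈ O) : ∃ w, Sp.iso (HH p x) w ∈ O ∧ (Sp.iso (HH p x) w ∈ SS p x B ↔ y ∈ SS p x B) := by
  rcases Sp.cases y with ⟨w, rfl⟩ | ⟨z, rfl⟩
  · exact ⟨w, hy, Iff.rfl⟩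
  · rcases z with i | b
    · obtain ⟨T, hT, hsub⟩ := Sp.isOpen_iff.1 hO _ hy
      obtain ⟨d, hd⟩ := Filter.nonempty_of_mem hT
      by_cases hi : i ∈ B
      · refine ⟨(d, false), hsub (show (d, false).1 ∈ T from hd), ?_⟩
        rw [iso_mem_SS, liml_mem_SS]
        simp [hi]
      · refine ⟨(d, true), hsub (show (d, true).1 ∈ T from hd), ?_⟩
        rw [iso_mem_SS, liml_mem_SS]
        simp [hi]
    · have h1 := Sp.isOpen_iff.1 hO _ hy
      have h2 : (fun d => (d, b)) ⁻¹' (Sp.iso (HH p x) ⁻¹' O) ∈ (p : Filter D) := h1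
      obtain ⟨d, hd⟩ := Filter.nonempty_of_mem h2
      refine ⟨(d, b), hd, ?_⟩
      rw [iso_mem_SS, limr_mem_SS]

lemma quasicontinuous_ind (B : Set ℝ) : Quasicontinuous (ind p x B) := by
  intro y O hO hy V hV hyV
  obtain ⟨w, hw1, hw2⟩ := exists_iso_mem p x B y O hO hy
  refine ⟨Sp.iso (HH p x) '' {w}, Sp.isOpen_image_iso _, ⟨_, w, rfl, rfl⟩, ?_, ?_⟩
  · rintro _ ⟨w', rfl, rfl⟩
    exact hw1
  · rintro _ ⟨_, ⟨w', rfl, rfl⟩, rfl⟩
    have : ind p x B (Sp.iso (HH p x) w') = ind p x B y := by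
      unfold ind
      by_cases h : y ∈ SS p x B
      · rw [if_pos h, if_pos (hw2.2 h)]
      · rw [if_neg h, if_neg (fun h' => h (hw2.1 h'))]
    rw [this]
    exact hyV

theorem not_frechetUrysohnAt :
    ¬ FrechetUrysohnAt (⟨ind p x ∅, quasicontinuous_ind p x ∅⟩ : Qp (Sp (HH p x))) := by
  intro hFU
  have hcl : (⟨ind p x ∅, quasicontinuous_ind p x ∅⟩ : Qp (Sp (HH p x))) ∈
      closure {g : Qp (Sp (HH p x)) | ∃ B : Set ℝ, Bᶜ.Finite ∧ g.1 = ind p x B} := by
    rw [mem_closure_iff]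
    intro O hO hfO
    obtain ⟨O', hO', rfl⟩ := isOpen_induced_iff.1 hO
    obtain ⟨F, v, hv, hsub⟩ := isOpen_pi_iff.1 hO' _ hfO
    let B : Set ℝ := {i | Sp.lim (HH p x) (Sum.inl i) ∉ F}
    have hBfin : Bᶜ.Finite := by
      have h1 : Bᶜ = (fun i => Sp.lim (HH p x) (Sum.inl i)) ⁻¹' (F : Set (Sp (HH p x))) := by
        ext i
        simp [B]
      rw [h1]
      refine F.finite_toSet.preimage ?_
      intro i _ j _ hij
      exact Sum.inl_injective (Sp.lim_injective hij)
    refine ⟨⟨ind p x B, quasicontinuous_ind p x B⟩, ?_, B, hBfin, rfl⟩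
    apply hsub
    intro y hy
    have hyF : y ∈ F := by simpa using hy
    have heq : ind p x B y = ind p x ∅ y := by
      have : y ∈ SS p x B ↔ y ∈ SS p x ∅ := by
        rcases Sp.cases y with ⟨⟨d, b⟩, rfl⟩ | ⟨z, rfl⟩
        · rw [iso_mem_SS, iso_mem_SS]
        · rcases z with i | b
          · rw [liml_mem_SS, liml_mem_SS]
            simp only [mem_empty_iff_false, iff_false]
            intro h
            exact h hyF
          · rw [limr_mem_SS, limr_mem_SS]
      unfold ind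
      by_cases h : y ∈ SS p x B
      · rw [if_pos h, if_pos (this.1 h)]
      · rw [if_neg h, if_neg (fun h' => h (this.2 h'))]
    show ind p x B y ∈ v y
    rw [heq]
    exact (hv y hyF).2
  obtain ⟨u, hu, hlim⟩ := hFU _ hcl
  · choose B hB hgB using hu
    obtain ⟨i, hi⟩ : ∃ i : ℝ, ∀ n, i ∈ B n := by
      by_contra hcon
      push Not at hcon
      apply Cardinal.not_countable_real
      refine (countable_iUnion fun n => (hB n).countable).mono ?_
      intro i _
      obtain ⟨n, hn⟩ := hcon i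
      exact mem_iUnion.2 ⟨n, hn⟩
    have h1 : Tendsto (fun n => (u n).1 (Sp.lim (HH p x) (Sum.inl i))) atTop
        (𝓝 (ind p x ∅ (Sp.lim (HH p x) (Sum.inl i)))) := by
      have h2 : Continuous (fun g : Qp (Sp (HH p x)) => g.1 (Sp.lim (HH p x) (Sum.inl i))) :=
        (continuous_apply _).comp continuous_subtype_val
      exact (h2.tendsto _).comp hlim
    have h3 : ∀ n, (u n).1 (Sp.lim (HH p x) (Sum.inl i)) = 1 := by
      intro n
      rw [hgB n]
      unfold ind
      rw [if_pos ((liml_mem_SS p x).2 (hi n))]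
    have h4 : ind p x ∅ (Sp.lim (HH p x) (Sum.inl i)) = 0 := by
      unfold ind
      rw [if_neg]
      rw [liml_mem_SS]
      simp
    simp only [h3, h4] at h1
    have := tendsto_nhds_unique h1 tendsto_const_nhds
    norm_num at this

end Concrete

end Pool.Agent.Lib.MP_76989b_gt
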