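import Mathlib
import Pool.Agent.Lib.MP_76989b_gt.Defs
import Pool.Agent.Lib.MP_76989b_gt.Selection
import Pool.Agent.Lib.MP_76989b_gt.FU

set_option autoImplicit false

open Set Filter Topology

namespace Pool.Agent.Lib.MP_76989b_gt

variable {X : Type*} [TopologicalSpace X]

/-- an `ω`-cover built from a property of minimally bounded sets -/
lemma mem_omegaS_of_finite {P : Set X → Prop}
    (h : ∀ F : Set X, F.Finite → ∃ A, MinimallyBounded A ∧ P A ∧ F ⊆ A) :
    {A | MinimallyBounded A ∧ P A} ∈ OmegaS X := by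
  refine ⟨fun A hA => hA.1, ?_, ?_⟩
  · rw [eq_univ_iff_forall]
    intro x
    obtain ⟨A, hA, hP, hx⟩ := h {x} (finite_singleton x)
    exact ⟨A, ⟨hA, hP⟩, hx rfl⟩
  · intro F hF
    obtain ⟨A, hA, hP, hx⟩ := h F hF
    exact ⟨A, ⟨hA, hP⟩, hx⟩

/-- If each point of a finite set is in the closure of an open set then their union does it. -/
lemma exists_regularClosed_of_pointwise {P : X → Set X → Prop}
    (h : ∀ x, ∃ B : Set X, IsOpen B ∧ x ∈ closure B ∧ P x B) (F : Set X) (hF : F.Finite) :
    ∃ (B : X → Set X), (∀ x, IsOpen (B x)) ∧ (∀ x, x ∈ closure (B x)) ∧ (∀ x, P x (B x)) ∧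
      MinimallyBounded (closure (⋃ x ∈ F, B x)) ∧ F ⊆ closure (⋃ x ∈ F, B x) ∧
      closure (⋃ x ∈ F, B x) = ⋃ x ∈ F, closure (B x) := by
  choose B hB1 hB2 hB3 using h
  have heq : closure (⋃ x ∈ F, B x) = ⋃ x ∈ F, closure (B x) := hF.closure_biUnion _
  refine ⟨B, hB1, hB2, hB3, minimallyBounded_closure (isOpen_biUnion fun x _ => hB1 x), ?_, heq⟩
  intro x hx
  rw [heq]
  exact mem_biUnion hx (hB2 x)

section

variable [T2Space X]

/-- In an open Whyburn space each point outside the interior of a closed set `M` is in the closure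
of an open set whose closure meets `M` at most in that point. -/
lemma exists_open_of_notMem_interior (hW : OpenWhyburn X) {M : Set X} (hM : IsClosed M)
    {x : X} (hMi : x ∉ interior M) :
    ∃ B : Set X, IsOpen B ∧ x ∈ closure B ∧ closure B ∩ M ⊆ {x} := by
  by_cases hx : IsOpen ({x} : Set X)
  · refine ⟨{x}, hx, subset_closure rfl, ?_⟩
    rw [closure_singleton]
    exact inter_subset_left
  · have hA : IsOpen (M ∪ {x})ᶜ := (hM.union isClosed_singleton).isOpen_compl
    have hi : interior ({x} : Set X) = ∅ := by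
      by_contra hne
      obtain ⟨y, hy⟩ := nonempty_iff_ne_empty.2 hne
      apply hx
      have h1 : y ∈ ({x} : Set X) := interior_subset hy
      have h2 : interior ({x} : Set X) = {x} := by
        apply Subset.antisymm interior_subset
        rintro z hz
        rw [mem_singleton_iff] at hz h1
        rw [h1] at hy
        rw [hz]
        exact hy
      rw [← h2]
      exact isOpen_interior
    have hxcl : x ∈ closure (M ∪ {x})ᶜ \ (M ∪ {x})ᶜ := by
      refine ⟨?_, by simp⟩
      rw [closure_compl, interior_union_isClosed_of_interior_empty hM hi]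
      exact hMi
    obtain ⟨B, hB, hBsub, hBeq⟩ := hW _ hA x hxcl
    refine ⟨B, hB, ?_, ?_⟩
    · have : x ∈ closure B \ (M ∪ {x})ᶜ := by rw [hBeq]; rfl
      exact this.1
    · rintro y ⟨hy1, hy2⟩
      have : y ∈ closure B \ (M ∪ {x})ᶜ := ⟨hy1, by simp [hy2]⟩
      rwa [hBeq] at this

/-- Closed nowhere dense sets are countable. -/
lemma countable_of_nowhereDense (hW : OpenWhyburn X) (hS : S1Strong X) {M : Set X}
    (hM : IsClosed M) (hMi : interior M = ∅) : M.Countable := by
  have hU : {A : Set X | MinimallyBounded A ∧ (A ∩ M).Finite} ∈ OmegaS X := by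
    apply mem_omegaS_of_finite
    intro F hF
    obtain ⟨B, h1, h2, h3, h4, h5, h6⟩ := exists_regularClosed_of_pointwise
      (P := fun x B => closure B ∩ M ⊆ {x})
      (fun x => exists_open_of_notMem_interior hW hM (x := x) (by rw [hMi]; simp)) F hF
    refine ⟨_, h4, ?_, h5⟩
    refine hF.subset ?_
    rw [h6]
    rintro y ⟨hy1, hy2⟩
    obtain ⟨x, hx, hxy⟩ := mem_iUnion₂.1 hy1
    have : y = x := h3 x ⟨hxy, hy2⟩
    rwa [this]
  obtain ⟨V, hV, hVx⟩ := hS (fun _ => _) (fun _ => hU)
  refine (countable_iUnion fun n => (hV n).2.countable).mono ?_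
  intro x hx
  obtain ⟨n, hn⟩ := (hVx x).exists
  exact mem_iUnion.2 ⟨n, hn, hx⟩

/-- The boundary of an open set is countable. -/
lemma countable_closure_diff (hW : OpenWhyburn X) (hS : S1Strong X) {G : Set X} (hG : IsOpen G) :
    (closure G \ G).Countable := by
  apply countable_of_nowhereDense hW hS (isClosed_closure.sdiff hG)
  by_contra hne
  obtain ⟨x, hx⟩ := nonempty_iff_ne_empty.2 hne
  have hx1 := interior_subset hx
  obtain ⟨y, hy1, hy2⟩ := mem_closure_iff.1 hx1.1 _ isOpen_interior hx
  exact (interior_subset hy1).2 hy2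

omit [T2Space X] in
/-- If each point is in the closure of an open set whose closure has countable trace on `I0`, then
`I0` is countable. -/
lemma countable_of_pointwise (hS : S1Strong X) {I0 : Set X}
    (h : ∀ x, ∃ B : Set X, IsOpen B ∧ x ∈ closure B ∧ (closure B ∩ I0).Countable) :
    I0.Countable := by
  have hU : {A : Set X | MinimallyBounded A ∧ (A ∩ I0).Countable} ∈ OmegaS X := by
    apply mem_omegaS_of_finite
    intro F hF
    obtain ⟨B, h1, h2, h3, h4, h5, h6⟩ := exists_regularClosed_of_pointwise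
      (P := fun _ B => (closure B ∩ I0).Countable) h F hF
    refine ⟨_, h4, ?_, h5⟩
    rw [h6, iUnion₂_inter]
    exact hF.countable.biUnion fun x _ => h3 x
  obtain ⟨V, hV, hVx⟩ := hS (fun _ => _) (fun _ => hU)
  refine (countable_iUnion fun n => (hV n).2).mono ?_
  intro x hx
  obtain ⟨n, hn⟩ := (hVx x).exists
  exact mem_iUnion.2 ⟨n, hn, hx⟩

/-- the set of isolated points -/
def Isol (X : Type*) [TopologicalSpace X] : Set X := {x | IsOpen ({x} : Set X)}

omit [T2Space X] in
lemma isOpen_of_subset_isol {B : Set X} (hB : B ⊆ Isol X) : IsOpen B := by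
  have : B = ⋃ x ∈ B, {x} := by simp
  rw [this]
  exact isOpen_biUnion fun x hx => hB hx

omit [T2Space X] in
lemma closure_inter_isol {B : Set X} : closure B ∩ Isol X ⊆ B := by
  rintro y ⟨hy1, hy2⟩
  obtain ⟨z, hz1, hz2⟩ := mem_closure_iff.1 hy1 {y} hy2 rfl
  rw [mem_singleton_iff] at hz1
  rwa [← hz1]

/-- There are only countably many isolated points. -/
lemma countable_isol (hW : OpenWhyburn X) (hS : S1Strong X) : (Isol X).Countable := by
  by_contra hI
  have hIo : IsOpen (Isol X) := isOpen_of_subset_isol Subset.rfl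
  -- reduction: it is enough to treat the points of `closure I \ I`
  have hred : ∀ I0 : Set X, I0 ⊆ Isol X →
      (∀ x ∈ closure (Isol X) \ Isol X, ∃ B : Set X, IsOpen B ∧ x ∈ closure B ∧
        (closure B ∩ I0).Countable) → I0.Countable := by
    intro I0 hI0 h
    apply countable_of_pointwise hS
    intro x
    by_cases hx : x ∈ Isol X
    · refine ⟨{x}, hx, subset_closure rfl, ?_⟩
      rw [closure_singleton]
      exact (countable_singleton x).mono inter_subset_left
    · by_cases hx2 : x ∈ closure (Isol X)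
      · exact h x ⟨hx2, hx⟩
      · refine ⟨(closure (Isol X))ᶜ, isClosed_closure.isOpen_compl, subset_closure hx2, ?_⟩
        have : closure (closure (Isol X))ᶜ ∩ I0 = ∅ := by
          rw [closure_compl, ← disjoint_iff_inter_eq_empty]
          rw [Set.disjoint_left]
          intro y hy hy0
          apply hy
          exact interior_maximal subset_closure hIo (hI0 hy0)
        rw [this]
        exact countable_empty
  by_cases h1 : ∀ x ∈ closure (Isol X) \ Isol X, ∃ B ⊆ Isol X, x ∈ closure B ∧ B.Countable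
  · apply hI
    apply hred _ Subset.rfl
    intro x hx
    obtain ⟨B, hB, hxB, hBc⟩ := h1 x hx
    exact ⟨B, isOpen_of_subset_isol hB, hxB, hBc.mono closure_inter_isol⟩
  · push Not at h1
    obtain ⟨m, hm, hmB⟩ := h1
    obtain ⟨Bm, hBmo, hBmI, hBm⟩ := hW _ hIo m hm
    have hmBm : m ∈ closure Bm := by
      have : m ∈ closure Bm \ Isol X := by rw [hBm]; rfl
      exact this.1
    have hBmc : ¬ Bm.Countable := hmB Bm hBmI hmBm
    -- intersections with other sets are countable
    have hint : ∀ x, x ≠ m → ∀ B ⊆ Isol X, closure B \ Isol X = {x} → (B ∩ Bm).Countable := by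
      intro x hx B hB hBx
      have hC : closure (B ∩ Bm) ⊆ B ∩ Bm := by
        intro y hy
        have hy1 : y ∈ closure B := closure_mono inter_subset_left hy
        have hy2 : y ∈ closure Bm := closure_mono inter_subset_right hy
        by_cases hyI : y ∈ Isol X
        · exact ⟨closure_inter_isol ⟨hy1, hyI⟩, closure_inter_isol ⟨hy2, hyI⟩⟩
        · exfalso
          have h3 : y ∈ closure B \ Isol X := ⟨hy1, hyI⟩
          have h4 : y ∈ closure Bm \ Isol X := ⟨hy2, hyI⟩
          rw [hBx, mem_singleton_iff] at h3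
          rw [hBm, mem_singleton_iff] at h4
          exact hx (h3.symm.trans h4)
      have hCclosed : IsClosed (B ∩ Bm) := isClosed_of_closure_subset hC
      have hCsub : B ∩ Bm ⊆ Isol X := inter_subset_left.trans hB
      have hCopen : IsOpen (B ∩ Bm) := isOpen_of_subset_isol hCsub
      apply hred _ hCsub
      rintro y ⟨_, hyI⟩
      refine ⟨(B ∩ Bm)ᶜ, hCclosed.isOpen_compl, subset_closure (fun h => hyI (hCsub h)), ?_⟩
      rw [hCopen.isClosed_compl.closure_eq]
      simp
    obtain ⟨B', B'', hunion, hdisj, hcard⟩ :=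
      Set.Infinite.exists_union_disjoint_cardinal_eq_of_infinite
        (s := Bm) (fun h => hBmc h.countable)
    have hcc : B'.Countable ↔ B''.Countable := by
      rw [← Cardinal.le_aleph0_iff_set_countable, ← Cardinal.le_aleph0_iff_set_countable, hcard]
    have hB'c : ¬ B'.Countable := by
      intro h
      apply hBmc
      rw [← hunion]
      exact h.union (hcc.1 h)
    have hB''c : ¬ B''.Countable := fun h => hB'c (hcc.2 h)
    have hB'I : B' ⊆ Isol X := (subset_union_left.trans hunion.subset).trans hBmI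
    have hB''I : B'' ⊆ Isol X := (subset_union_right.trans hunion.subset).trans hBmI
    have hfinal : ∀ P Q : Set X, P ⊆ Bm → Q ⊆ Bm → Disjoint P Q → m ∈ closure P →
        Q.Countable := by
      intro P Q hP hQ hPQ hmP
      apply hred Q (hQ.trans hBmI)
      intro x hx
      by_cases hxm : x = m
      · subst hxm
        refine ⟨P, isOpen_of_subset_isol (hP.trans hBmI), hmP, ?_⟩
        have : closure P ∩ Q = ∅ := by
          rw [← disjoint_iff_inter_eq_empty, Set.disjoint_left]
          intro y hy1 hy2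
          exact (Set.disjoint_left.1 hPQ) (closure_inter_isol ⟨hy1, hBmI (hQ hy2)⟩) hy2
        rw [this]
        exact countable_empty
      · obtain ⟨B, hBo, hBI, hB⟩ := hW _ hIo x hx
        have hxB : x ∈ closure B := by
          have : x ∈ closure B \ Isol X := by rw [hB]; rfl
          exact this.1
        refine ⟨B, hBo, hxB, (hint x hxm B hBI hB).mono ?_⟩
        rintro y ⟨hy1, hy2⟩
        exact ⟨closure_inter_isol ⟨hy1, hBmI (hQ hy2)⟩, hQ hy2⟩
    rw [← hunion, closure_union] at hmBm
    rcases hmBm with h | h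
    · exact hB''c (hfinal B' B'' (subset_union_left.trans hunion.subset)
        (subset_union_right.trans hunion.subset) hdisj h)
    · exact hB'c (hfinal B'' B' (subset_union_right.trans hunion.subset)
        (subset_union_left.trans hunion.subset) hdisj.symm h)

/-- The countable chain condition. -/
lemma ccc (hW : OpenWhyburn X) (hS : S1Strong X) (𝒪 : Set (Set X))
    (hopen : ∀ O ∈ 𝒪, IsOpen O) (hne : ∀ O ∈ 𝒪, O.Nonempty) (hdisj : 𝒪.PairwiseDisjoint id) :
    𝒪.Countable := by
  classical
  rcases isEmpty_or_nonempty X with hX | hX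
  · exact Set.to_countable 𝒪
  choose! c hc using hne
  have hinj : InjOn c 𝒪 := by
    intro O hO O' hO' h
    by_contra hOO'
    have h1 : c O ∈ O' := by rw [h]; exact hc O' hO'
    exact (Set.disjoint_left.1 (hdisj hO hO' hOO')) (hc O hO) h1
  refine Set.countable_of_injective_of_countable_image hinj ?_
  -- the image is the union of its isolated and non-isolated part
  have h1 : (c '' 𝒪 ∩ Isol X).Countable := (countable_isol hW hS).mono inter_subset_right
  have h2 : (c '' 𝒪 \ Isol X).Countable := by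
    refine (countable_of_nowhereDense hW hS (M := closure (c '' 𝒪 \ Isol X)) isClosed_closure
      ?_).mono subset_closure
    by_contra hne
    obtain ⟨x, hx⟩ := nonempty_iff_ne_empty.2 hne
    obtain ⟨y, hy1, hy2⟩ := mem_closure_iff.1 (interior_subset hx) _ isOpen_interior hx
    obtain ⟨⟨O, hO, rfl⟩, hyI⟩ := hy2
    -- a nonempty open set avoiding the discrete set
    have hG : IsOpen ((interior (closure (c '' 𝒪 \ Isol X)) ∩ O) \ {c O}) :=
      (isOpen_interior.inter (hopen O hO)).sdiff isClosed_singleton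
    have hGne : ((interior (closure (c '' 𝒪 \ Isol X)) ∩ O) \ {c O}).Nonempty := by
      by_contra hemp
      rw [not_nonempty_iff_eq_empty, sdiff_eq_empty] at hemp
      apply hyI
      have h3 : interior (closure (c '' 𝒪 \ Isol X)) ∩ O = {c O} := by
        apply Subset.antisymm hemp
        rintro z rfl
        exact ⟨hy1, hc O hO⟩
      show IsOpen {c O}
      rw [← h3]
      exact isOpen_interior.inter (hopen O hO)
    obtain ⟨z, hz⟩ := hGne
    obtain ⟨w, hw1, hw2⟩ := mem_closure_iff.1 (interior_subset hz.1.1) _ hG hz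
    obtain ⟨⟨O', hO', rfl⟩, _⟩ := hw2
    have hOO' : O' = O := by
      by_contra hcon
      exact (Set.disjoint_left.1 (hdisj hO' hO hcon)) (hc O' hO') hw1.1.2
    rw [hOO'] at hw1
    exact hw1.2 rfl
  have h3 : c '' 𝒪 = (c '' 𝒪 ∩ Isol X) ∪ (c '' 𝒪 \ Isol X) := (inter_union_sdiff _ _).symm
  rw [h3]
  exact h1.union h2

/-- Maximal families. -/
lemma exists_maximal_family (hW : OpenWhyburn X) (hS : S1Strong X) (P : Set X → Prop) :
    ∃ 𝒪 : Set (Set X), 𝒪.Countable ∧ (∀ O ∈ 𝒪, IsOpen O ∧ P O) ∧
      ∀ G : Set X, IsOpen G → G.Nonempty → P G → (G ∩ ⋃₀ 𝒪).Nonempty := by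
  obtain ⟨𝒪, hmax⟩ := zorn_subset {𝒪 : Set (Set X) | (∀ O ∈ 𝒪, IsOpen O ∧ O.Nonempty ∧ P O) ∧
    𝒪.PairwiseDisjoint id} (by
    intro c hc hchain
    refine ⟨⋃₀ c, ⟨?_, ?_⟩, fun s hs => subset_sUnion_of_mem hs⟩
    · rintro O ⟨s, hs, hO⟩
      exact (hc hs).1 O hO
    · rw [Set.pairwiseDisjoint_sUnion hchain.directedOn]
      exact fun s hs => (hc hs).2)
  have hmem := hmax.prop
  refine ⟨𝒪, ccc hW hS 𝒪 (fun O hO => (hmem.1 O hO).1) (fun O hO => (hmem.1 O hO).2.1) hmem.2,
    fun O hO => ⟨(hmem.1 O hO).1, (hmem.1 O hO).2.2⟩, ?_⟩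
  intro G hG hGne hPG
  by_contra hcon
  rw [not_nonempty_iff_eq_empty] at hcon
  have hins : insert G 𝒪 ∈ {𝒪 : Set (Set X) | (∀ O ∈ 𝒪, IsOpen O ∧ O.Nonempty ∧ P O) ∧
      𝒪.PairwiseDisjoint id} := by
    constructor
    · rintro O (rfl | hO)
      · exact ⟨hG, hGne, hPG⟩
      · exact hmem.1 O hO
    · refine hmem.2.insert ?_
      intro O hO _
      show Disjoint G O
      rw [Set.disjoint_left]
      intro x hx1 hx2
      have : x ∈ G ∩ ⋃₀ 𝒪 := ⟨hx1, O, hO, hx2⟩
      rw [hcon] at this
      exact this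
  have h1 : G ∈ 𝒪 := (hmax.le_of_ge hins (subset_insert _ _)) (mem_insert _ _)
  obtain ⟨x, hx⟩ := hGne
  have : x ∈ G ∩ ⋃₀ 𝒪 := ⟨hx, G, h1, hx⟩
  rw [hcon] at this
  exact this

/-! ### Points of discontinuity of quasicontinuous functions -/

omit [T2Space X] in
lemma Quasicontinuous.preimage_subset {f : X → ℝ} (hf : Quasicontinuous f) {V : Set ℝ}
    (hV : IsOpen V) : f ⁻¹' V ⊆ closure (interior (f ⁻¹' V)) := by
  intro x hx
  rw [mem_closure_iff]
  intro O hO hxO
  obtain ⟨W, hW, ⟨w, hw⟩, hWO, hWV⟩ := hf x O hO hxO V hV hx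
  refine ⟨w, hWO hw, ?_⟩
  rw [mem_interior]
  exact ⟨W, image_subset_iff.1 hWV, hW, hw⟩

omit [T2Space X] in
/-- A point of discontinuity of a quasicontinuous function lies on the boundary of the closure of
one of countably many open sets. -/
lemma exists_rat_of_not_continuousAt {f : X → ℝ} (hf : Quasicontinuous f) {x : X}
    (hx : ¬ ContinuousAt f x) : ∃ q : ℚ,
      (x ∈ closure (interior (f ⁻¹' Ioi (q : ℝ))) ∧
        x ∉ interior (closure (interior (f ⁻¹' Ioi (q : ℝ))))) ∨
      (x ∈ closure (interior (f ⁻¹' Iio (q : ℝ))) ∧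
        x ∉ interior (closure (interior (f ⁻¹' Iio (q : ℝ))))) := by
  -- a general observation
  have key : ∀ V V' : Set ℝ, IsOpen V → IsOpen V' → Disjoint V V' → f x ∈ V' →
      x ∉ interior (closure (interior (f ⁻¹' V))) := by
    intro V V' hV hV' hd hxV' hcon
    obtain ⟨W, hW, ⟨w, hw⟩, hWO, hWV⟩ := hf x _ isOpen_interior hcon V' hV' hxV'
    obtain ⟨y, hy1, hy2⟩ := mem_closure_iff.1 (interior_subset (hWO hw)) W hW hw
    exact (Set.disjoint_left.1 hd) (interior_subset hy2 : y ∈ f ⁻¹' V) (hWV ⟨y, hy1, rfl⟩)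
  rw [Metric.continuousAt_iff'] at hx
  push Not at hx
  obtain ⟨ε, hε, hfr⟩ := hx
  have hfr2 : ∃ᶠ y in 𝓝 x, f x + ε ≤ f y ∨ f y ≤ f x - ε := by
    refine hfr.mono ?_
    intro y hy
    rw [Real.dist_eq, le_abs] at hy
    rcases hy with hy | hy
    · left; linarith
    · right; linarith
  rw [Filter.frequently_or_distrib] at hfr2
  rcases hfr2 with h | h
  · obtain ⟨q, hq1, hq2⟩ := exists_rat_btwn (show f x < f x + ε by linarith)
    refine ⟨q, Or.inl ⟨?_, key _ (Iio (q : ℝ)) isOpen_Ioi isOpen_Iio ?_ hq1⟩⟩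
    · have h1 : x ∈ closure (f ⁻¹' Ioi (q : ℝ)) := by
        rw [mem_closure_iff_frequently]
        refine h.mono fun y hy => ?_
        show (q : ℝ) < f y
        linarith
      have h2 := closure_mono (hf.preimage_subset (isOpen_Ioi (a := (q : ℝ)))) h1
      rwa [closure_closure] at h2
    · rw [Set.disjoint_left]
      intro y hy1 hy2
      exact lt_asymm (mem_Ioi.1 hy1) (mem_Iio.1 hy2)
  · obtain ⟨q, hq1, hq2⟩ := exists_rat_btwn (show f x - ε < f x by linarith)
    refine ⟨q, Or.inr ⟨?_, key _ (Ioi (q : ℝ)) isOpen_Iio isOpen_Ioi ?_ hq2⟩⟩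
    · have h1 : x ∈ closure (f ⁻¹' Iio (q : ℝ)) := by
        rw [mem_closure_iff_frequently]
        refine h.mono fun y hy => ?_
        show f y < (q : ℝ)
        linarith
      have h2 := closure_mono (hf.preimage_subset (isOpen_Iio (a := (q : ℝ)))) h1
      rwa [closure_closure] at h2
    · rw [Set.disjoint_left]
      intro y hy1 hy2
      exact lt_asymm (mem_Iio.1 hy1) (mem_Ioi.1 hy2)

omit [T2Space X] in
lemma exists_open_of_not_continuousAt {f : X → ℝ} (hf : Quasicontinuous f) {x : X}
    (hx : ¬ ContinuousAt f x) : ∃ G : Set X, IsOpen G ∧ x ∈ closure G ∧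
      x ∉ interior (closure G) := by
  obtain ⟨q, h | h⟩ := exists_rat_of_not_continuousAt hf hx
  · exact ⟨_, isOpen_interior, h.1, h.2⟩
  · exact ⟨_, isOpen_interior, h.1, h.2⟩

lemma countable_discontinuities (hW : OpenWhyburn X) (hS : S1Strong X) {f : X → ℝ}
    (hf : Quasicontinuous f) : {x | ¬ ContinuousAt f x}.Countable := by
  have h1 : {x | ¬ ContinuousAt f x} ⊆ ⋃ q : ℚ,
      (closure (interior (f ⁻¹' Ioi (q : ℝ))) \ interior (f ⁻¹' Ioi (q : ℝ))) ∪
      (closure (interior (f ⁻¹' Iio (q : ℝ))) \ interior (f ⁻¹' Iio (q : ℝ))) := by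
    intro x hx
    obtain ⟨q, h | h⟩ := exists_rat_of_not_continuousAt hf hx
    · refine mem_iUnion.2 ⟨q, Or.inl ⟨h.1, fun h' => h.2 ?_⟩⟩
      exact interior_maximal subset_closure isOpen_interior h'
    · refine mem_iUnion.2 ⟨q, Or.inr ⟨h.1, fun h' => h.2 ?_⟩⟩
      exact interior_maximal subset_closure isOpen_interior h'
  refine (countable_iUnion fun q => ?_).mono h1
  exact (countable_closure_diff hW hS isOpen_interior).union
    (countable_closure_diff hW hS isOpen_interior)

/-- A quasicontinuous function is continuous outside a countable closed set. -/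
lemma exists_countable_closed (hW : OpenWhyburn X) (hS : S1Strong X) {f : X → ℝ}
    (hf : Quasicontinuous f) :
    ∃ M : Set X, IsClosed M ∧ M.Countable ∧ ∀ x, x ∉ M → ContinuousAt f x := by
  classical
  obtain ⟨𝒪, h𝒪c, h𝒪, h𝒪max⟩ := exists_maximal_family hW hS Set.Countable
  have hG0 : IsOpen (⋃₀ 𝒪) := isOpen_sUnion fun O hO => (h𝒪 O hO).1
  have hG0c : (⋃₀ 𝒪).Countable := h𝒪c.sUnion fun O hO => (h𝒪 O hO).2
  have hKc : (closure (⋃₀ 𝒪)).Countable := by
    have h1 : closure (⋃₀ 𝒪) ⊆ (⋃₀ 𝒪) ∪ (closure (⋃₀ 𝒪) \ ⋃₀ 𝒪) := by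
      intro x hx
      by_cases h : x ∈ ⋃₀ 𝒪
      · exact Or.inl h
      · exact Or.inr ⟨hx, h⟩
    exact (hG0c.union (countable_closure_diff hW hS hG0)).mono h1
  set K := closure (⋃₀ 𝒪) with hK
  set Df := {x | ¬ ContinuousAt f x} with hDf
  have hDfc : Df.Countable := countable_discontinuities hW hS hf
  have hint : interior (closure (Df ∩ Kᶜ)) = ∅ := by
    by_contra hne
    obtain ⟨x₀, hx₀⟩ := nonempty_iff_ne_empty.2 hne
    set R := interior (closure (Df ∩ Kᶜ)) ∩ Kᶜ with hR
    have hRo : IsOpen R := isOpen_interior.inter isClosed_closure.isOpen_compl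
    have hRQ : R ⊆ closure (Df ∩ R) := by
      intro y hy
      rw [mem_closure_iff]
      intro O hO hyO
      obtain ⟨z, hz1, hz2⟩ := mem_closure_iff.1 (interior_subset hy.1) (O ∩ R) (hO.inter hRo)
        ⟨hyO, hy⟩
      exact ⟨z, hz1.1, hz2.1, hz1.2⟩
    obtain ⟨x₁, hx₁, hx₁'⟩ := mem_closure_iff.1 (interior_subset hx₀) _ isOpen_interior hx₀
    have hQne : (Df ∩ R).Nonempty := ⟨x₁, hx₁'.1, hx₁, hx₁'.2⟩
    obtain ⟨q, hq⟩ := (hDfc.mono inter_subset_left : (Df ∩ R).Countable).exists_eq_range hQne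
    have hqD : ∀ i, q i ∈ Df := fun i => by
      have : q i ∈ Df ∩ R := by rw [hq]; exact mem_range_self i
      exact this.1
    have hU : ∀ n : ℕ, {A : Set X | MinimallyBounded A ∧
        (IsClosed A ∧ ∀ i ≤ n, q i ∉ interior A)} ∈ OmegaS X := by
      intro n
      apply mem_omegaS_of_finite
      intro F hF
      have hF' : (F ∪ q '' Iic n).Finite := hF.union ((finite_Iic n).image q)
      have hpt : ∀ x, ∃ B : Set X, IsOpen B ∧ x ∈ closure B ∧
          (closure B ∩ (F ∪ q '' Iic n) ⊆ {x} ∧ (x ∈ Df → x ∉ interior (closure B))) := by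
        intro x
        have hfin : ((F ∪ q '' Iic n) \ {x}).Finite := hF'.subset sdiff_subset
        obtain ⟨u, v, hu, hv, hxu, hFv, huv⟩ := SeparatedNhds.of_finset_finset {x} hfin.toFinset
          (by simp)
        have hxu' : x ∈ u := hxu (by simp)
        have hcl : Disjoint (closure u) v := huv.closure_left hv
        have hclu : closure u ∩ (F ∪ q '' Iic n) ⊆ {x} := by
          rintro y ⟨hy1, hy2⟩
          by_contra hyx
          have hyv : y ∈ v := hFv (by
            simp only [Finite.coe_toFinset]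
            exact ⟨hy2, hyx⟩)
          exact (Set.disjoint_left.1 hcl) hy1 hyv
        by_cases hxD : x ∈ Df
        · obtain ⟨G, hG, hxG, hxG'⟩ := exists_open_of_not_continuousAt hf hxD
          refine ⟨G ∩ u, hG.inter hu, ?_, ?_, ?_⟩
          · rw [mem_closure_iff] at hxG ⊢
            intro O hO hxO
            obtain ⟨y, hy1, hy2⟩ := hxG (O ∩ u) (hO.inter hu) ⟨hxO, hxu'⟩
            exact ⟨y, hy1.1, hy2, hy1.2⟩
          · exact (inter_subset_inter_left _ (closure_mono inter_subset_right)).trans hclu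
          · intro _ hcon
            exact hxG' (interior_mono (closure_mono inter_subset_left) hcon)
        · exact ⟨u, hu, subset_closure hxu', hclu, fun h => absurd h hxD⟩
      obtain ⟨B, h1, h2, h3, h4, h5, h6⟩ := exists_regularClosed_of_pointwise hpt F hF
      refine ⟨_, h4, ⟨isClosed_closure, ?_⟩, h5⟩
      intro i hi hcon
      have hmem : q i ∈ ⋃ x ∈ F, closure (B x) := by
        rw [← h6]; exact interior_subset hcon
      obtain ⟨x, hx, hxi⟩ := mem_iUnion₂.1 hmem
      have hqF' : q i ∈ F ∪ q '' Iic n := Or.inr ⟨i, hi, rfl⟩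
      have hqx : q i = x := (h3 x).1 ⟨hxi, hqF'⟩
      -- near `q i` only `B (q i)` matters
      apply (h3 (q i)).2 (hqD i)
      rw [mem_interior]
      refine ⟨interior (closure (⋃ x ∈ F, B x)) ∩ (⋃ x ∈ F \ {q i}, closure (B x))ᶜ, ?_, ?_, ?_⟩
      · rintro y ⟨hy1, hy2⟩
        have hy3 : y ∈ ⋃ x ∈ F, closure (B x) := by
          rw [← h6]; exact interior_subset hy1
        obtain ⟨z, hz, hyz⟩ := mem_iUnion₂.1 hy3
        by_cases hzq : z = q i
        · rwa [hzq] at hyz
        · exact absurd (mem_biUnion (show z ∈ F \ {q i} from ⟨hz, hzq⟩) hyz) hy2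
      · exact isOpen_interior.inter ((hF.subset sdiff_subset).isClosed_biUnion
          (fun x _ => isClosed_closure)).isOpen_compl
      · refine ⟨hcon, ?_⟩
        intro hcon2
        obtain ⟨z, hz, hqz⟩ := mem_iUnion₂.1 hcon2
        exact hz.2 ((h3 z).1 ⟨hqz, hqF'⟩).symm
    obtain ⟨V, hV, hVx⟩ := hS _ hU
    have hRc : R.Countable := by
      have hMm : ∀ m : ℕ, ((⋂ n ≥ m, V n) ∩ closure R).Countable := by
        intro m
        apply countable_of_nowhereDense hW hS
        · refine IsClosed.inter ?_ isClosed_closure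
          exact isClosed_biInter fun n _ => (hV n).2.1
        · by_contra hne2
          obtain ⟨z, hz⟩ := nonempty_iff_ne_empty.2 hne2
          obtain ⟨y, hy1, hy2⟩ := mem_closure_iff.1 (interior_subset hz).2 _ isOpen_interior hz
          obtain ⟨w, hw1, hw2⟩ := mem_closure_iff.1 (hRQ hy2) _ isOpen_interior hy1
          rw [hq] at hw2
          obtain ⟨i, rfl⟩ := hw2
          have h1 : interior ((⋂ n ≥ m, V n) ∩ closure R) ⊆ V (max m i) := by
            refine interior_subset.trans (inter_subset_left.trans ?_)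
            exact biInter_subset_of_mem (le_max_left m i)
          exact (hV (max m i)).2.2 i (le_max_right m i)
            (interior_maximal h1 isOpen_interior hw1)
      refine (countable_iUnion hMm).mono ?_
      intro x hx
      obtain ⟨m, hm⟩ := eventually_atTop.1 (hVx x)
      exact mem_iUnion.2 ⟨m, mem_iInter₂.2 fun n hn => hm n hn, subset_closure hx⟩
    obtain ⟨y, hy1, hy2⟩ := h𝒪max R hRo ⟨x₁, hx₁, hx₁'.2⟩ hRc
    exact hy1.2 (subset_closure hy2)
  refine ⟨K ∪ closure (Df ∩ Kᶜ), isClosed_closure.union isClosed_closure,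
    hKc.union (countable_of_nowhereDense hW hS isClosed_closure hint), ?_⟩
  intro x hx
  by_contra hcon
  apply hx
  by_cases hxK : x ∈ K
  · exact Or.inl hxK
  · exact Or.inr (subset_closure ⟨hcon, hxK⟩)

/-- Small regular closed sets containing larger and larger parts of a countable closed set. -/
lemma exists_shrinking (hW : OpenWhyburn X) (hS : S1Strong X) {M : Set X} (hM : IsClosed M)
    (hMc : M.Countable) : ∃ E : ℕ → Set X, (∀ n, closure (interior (E n)) = E n) ∧
      (∀ d ∈ M, ∀ᶠ n in atTop, d ∈ E n) ∧ ∀ x, x ∉ M → ∀ᶠ n in atTop, x ∉ E n := by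
  classical
  obtain ⟨e, he⟩ := Set.countable_iff_exists_injOn.1 hMc
  obtain ⟨𝒪, h𝒪c, h𝒪, h𝒪max⟩ := exists_maximal_family hW hS (fun O => Disjoint (closure O) M)
  obtain ⟨O, hO⟩ := ((h𝒪c.insert ∅) : (insert ∅ 𝒪).Countable).exists_eq_range
    (insert_nonempty _ _)
  have hOo : ∀ k, IsOpen (O k) := by
    intro k
    have : O k ∈ insert ∅ 𝒪 := by rw [hO]; exact mem_range_self k
    rcases this with h | h
    · rw [h]; exact isOpen_empty
    · exact (h𝒪 _ h).1
  have hOd : ∀ k, Disjoint (closure (O k)) M := by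
    intro k
    have : O k ∈ insert ∅ 𝒪 := by rw [hO]; exact mem_range_self k
    rcases this with h | h
    · rw [h]; simp
    · exact (h𝒪 _ h).2
  set T := ⋃ k, O k with hT
  have hTo : IsOpen T := isOpen_iUnion hOo
  have hTM : Disjoint T M := by
    rw [hT, Set.disjoint_iUnion_left]
    exact fun k => (hOd k).mono_left subset_closure
  have hTdense : Mᶜ ⊆ closure T := by
    intro y hy
    rw [mem_closure_iff]
    intro G hG hyG
    obtain ⟨B, hB, hyB, hBM⟩ := exists_open_of_notMem_interior hW hM (x := y)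
      (fun h => hy (interior_subset h))
    obtain ⟨z, hz1, hz2⟩ := mem_closure_iff.1 hyB G hG hyG
    obtain ⟨w, hw1, hw2⟩ := h𝒪max (G ∩ B) (hG.inter hB) ⟨z, hz1, hz2⟩ (by
      rw [Set.disjoint_left]
      intro a ha haM
      have h1 : a ∈ closure B := closure_mono inter_subset_right ha
      have h2 : a = y := hBM ⟨h1, haM⟩
      rw [h2] at haM
      exact hy haM)
    obtain ⟨O', hO', hwO'⟩ := hw2
    have h3 : O' ∈ range O := by rw [← hO]; exact Or.inr hO'
    obtain ⟨k, rfl⟩ := h3
    exact ⟨w, hw1.1, mem_iUnion.2 ⟨k, hwO'⟩⟩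
  have hBd : ∀ d, ∃ B : Set X, IsOpen B ∧ closure B ⊆ T ∪ {d} ∧
      (d ∈ M → d ∉ interior M → d ∈ closure B) := by
    intro d
    by_cases hd : d ∈ M ∧ d ∉ interior M
    · have h1 : d ∈ closure T \ T := by
        refine ⟨?_, fun h => (Set.disjoint_left.1 hTM) h hd.1⟩
        have h2 : d ∈ closure Mᶜ := by
          rw [closure_compl]; exact hd.2
        have h3 := closure_mono hTdense h2
        rwa [closure_closure] at h3
      obtain ⟨B, hB, hBT, hBeq⟩ := hW T hTo d h1
      refine ⟨B, hB, ?_, fun _ _ => ?_⟩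
      · intro y hy
        by_cases hyT : y ∈ T
        · exact Or.inl hyT
        · right
          rw [← hBeq]
          exact ⟨hy, hyT⟩
      · have : d ∈ closure B \ T := by rw [hBeq]; rfl
        exact this.1
    · refine ⟨∅, isOpen_empty, by simp, fun h1 h2 => absurd ⟨h1, h2⟩ hd⟩
  choose B hB1 hB2 hB3 using hBd
  let Mn : ℕ → Set X := fun n => M ∩ e ⁻¹' Iic n
  have hMnfin : ∀ n, (Mn n).Finite := by
    intro n
    refine Set.Finite.of_injOn (f := e) (t := Iic n) ?_ ?_ (finite_Iic n)
    · intro y hy; exact hy.2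
    · exact he.mono inter_subset_left
  let C : ℕ → Set X := fun n => ⋃ k ∈ Iio n, closure (O k)
  have hCc : ∀ n, IsClosed (C n) := fun n =>
    (finite_Iio n).isClosed_biUnion fun k _ => isClosed_closure
  have hCM : ∀ n, Disjoint (C n) M := by
    intro n
    rw [Set.disjoint_iUnion₂_left]
    exact fun k _ => hOd k
  let G : ℕ → Set X := fun n => interior M ∪ ⋃ d ∈ Mn n, (B d ∩ (C n)ᶜ)
  have hG : ∀ n, IsOpen (G n) := fun n =>
    isOpen_interior.union (isOpen_biUnion fun d _ => (hB1 d).inter (hCc n).isOpen_compl)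
  refine ⟨fun n => closure (G n), ?_, ?_, ?_⟩
  · intro n
    apply Subset.antisymm
    · have := closure_mono (interior_subset (s := closure (G n)))
      rwa [closure_closure] at this
    · exact closure_mono (interior_maximal subset_closure (hG n))
  · intro d hd
    filter_upwards [eventually_ge_atTop (e d)] with n hn
    by_cases hdi : d ∈ interior M
    · exact subset_closure (Or.inl hdi)
    · have h1 := hB3 d hd hdi
      rw [mem_closure_iff] at h1 ⊢
      intro N hN hdN
      obtain ⟨y, hy1, hy2⟩ := h1 (N ∩ (C n)ᶜ) (hN.inter (hCc n).isOpen_compl)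
        ⟨hdN, fun h => (Set.disjoint_left.1 (hCM n)) h hd⟩
      exact ⟨y, hy1.1, Or.inr (mem_biUnion (show d ∈ Mn n from ⟨hd, hn⟩) ⟨hy2, hy1.2⟩)⟩
  · intro x hx
    have hcl : ∀ n, closure (G n) = closure (interior M) ∪ ⋃ d ∈ Mn n, closure (B d ∩ (C n)ᶜ) := by
      intro n
      rw [closure_union, (hMnfin n).closure_biUnion]
    have hxi : x ∉ closure (interior M) := by
      intro h
      apply hx
      have := closure_mono (interior_subset (s := M)) h
      rwa [hM.closure_eq] at this
    have hxT : ∀ d ∈ M, x ∈ closure (B d) → x ∈ T := by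
      intro d hd h
      rcases hB2 d h with h' | h'
      · exact h'
      · rw [mem_singleton_iff] at h'
        rw [h'] at hx
        exact absurd hd hx
    by_cases hxT' : x ∈ T
    · obtain ⟨k, hk⟩ := mem_iUnion.1 hxT'
      filter_upwards [eventually_gt_atTop k] with n hn hcon
      rw [hcl] at hcon
      rcases hcon with h | h
      · exact hxi h
      · obtain ⟨d, hd, hxd⟩ := mem_iUnion₂.1 h
        obtain ⟨y, hy1, hy2⟩ := mem_closure_iff.1 hxd (O k) (hOo k) hk
        exact hy2.2 (mem_biUnion (show k ∈ Iio n from hn) (subset_closure hy1))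
    · refine Filter.Eventually.of_forall fun n hcon => ?_
      replace hcon : x ∈ closure (G n) := hcon
      rw [hcl] at hcon
      rcases hcon with h | h
      · exact hxi h
      · obtain ⟨d, hd, hxd⟩ := mem_iUnion₂.1 h
        exact hxT' (hxT d hd.1 (closure_mono inter_subset_left hxd))

/-- The main theorem: open Whyburn spaces with the selection principle. -/
theorem frechetUrysohnAt_of_openWhyburn (hW : OpenWhyburn X) (hS : S1Strong X) (f : Qp X) :
    FrechetUrysohnAt f := by
  obtain ⟨M, hM, hMc, hcont⟩ := exists_countable_closed hW hS f.2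
  obtain ⟨E, hE1, hE2, hE3⟩ := exists_shrinking hW hS hM hMc
  exact frechetUrysohnAt_of_data hS f.1 f.2 M hM hMc hcont E hE1 hE2 hE3

end

end Pool.Agent.Lib.MP_76989b_gt
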